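import Mathlib

/-!
# The ovals problem for curves with a balanced half turn: definitions and statements

Paper proof.  `A(K) = ∫₀¹ 2 dt/(t²+2Kt+1) = arccos K/√(1-K²)`, decreasing on `(0,∞)` from `π/2` to `0`.
For a unit vector field `T` along an interval starting at `0`, `e = T 0`, `c = ⟪T, e⟫`,
`x(s) = ∫₀ˢ c`, put `y = x/sin s`, `K` = the solution of `A(K) = y` (`K = ∞` if `y ≤ 0`), `k = 1/K` and
`u = cot s - (1/(2 sin s)) [ (1+c)²/(K+cos s) - (1-c)²/(K-cos s) ]`.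
Then `u' + u² + 1 ≤ |T'|²`.
-/

open MeasureTheory Set Filter Topology intervalIntegral
open scoped ContDiff

namespace Pool.Agent.H421R2.OV

/-- `A(K) = ∫₀¹ 2 dt / (t² + 2 K t + 1)` (for `K > -1` it equals `arccos K / √(1-K²)`). -/
noncomputable def Af (K : ℝ) : ℝ := ∫ t in (0:ℝ)..1, 2 / (t^2 + 2*K*t + 1)

/-- the derivative of `Af` -/
noncomputable def Ap (K : ℝ) : ℝ := ∫ t in (0:ℝ)..1, -(4*t) / (t^2 + 2*K*t + 1)^2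

open Classical in
/-- `kf y = 1/K` where `K > 0` is the solution of `Af K = y`, and `kf y = 0` for `y ≤ 0`. -/
noncomputable def kf (y : ℝ) : ℝ :=
  if h : 0 < y ∧ ∃ K : ℝ, 0 < K ∧ Af K = y then 1 / h.2.choose else 0

/-- the Riccati function -/
noncomputable def Uf (s k c : ℝ) : ℝ :=
  Real.cos s / Real.sin s
    - ((1+c)^2 * k / (1 + Real.cos s * k) - (1-c)^2 * k / (1 - Real.cos s * k)) / (2 * Real.sin s)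

def S_A1 : Prop := ∀ K : ℝ, 0 < K → HasDerivAt Af (Ap K) K
def S_A2 : Prop := ContinuousOn Ap (Ioi 0)
def S_A3 : Prop := ∀ K : ℝ, 0 < K → (1 - K^2) * Ap K - K * Af K + 1 = 0
def S_A4 : Prop := ∀ K : ℝ, 0 < K → -1 ≤ Ap K ∧ Ap K ≤ -1 / (2 * (1+K)^2)
def S_A5 : Prop := ∀ s ∈ Ioo (0:ℝ) (Real.pi/2), Af (Real.cos s) * Real.sin s = s
def S_A6 : Prop := ∀ y : ℝ, 0 < y → y < Real.pi/2 → ∃ K : ℝ, 0 < K ∧ Af K = y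
def S_A7 : Prop := Tendsto (fun K => K * Af K) atTop atTop
def S_A8 : Prop := StrictAntiOn Af (Ioi 0)
def S_A9 : Prop := ∀ K : ℝ, 0 < K → 0 < Af K ∧ Af K < Real.pi/2
def S_K1 : Prop := (∀ y : ℝ, 0 < y → y < Real.pi/2 → 0 < kf y ∧ Af (1 / kf y) = y) ∧
  (∀ K : ℝ, 0 < K → kf (Af K) = 1 / K) ∧ (∀ y : ℝ, y ≤ 0 → kf y = 0)
def S_K2 : Prop := ∀ y : ℝ, 0 < y → y < Real.pi/2 →
  HasDerivAt kf (-(kf y)^2 / Ap (1 / kf y)) y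
def S_K3 : Prop := ∀ y : ℝ, y ≤ 0 → HasDerivAt kf 0 y
def S_D : Prop := ∀ s ∈ Ioo (0:ℝ) Real.pi, ∀ z : ℝ, z < s → z < Real.pi - s →
  z / Real.sin s < Real.pi/2 ∧ 0 ≤ kf (z / Real.sin s) ∧ |Real.cos s| * kf (z / Real.sin s) < 1

/-- the algebraic identity behind the Riccati inequality -/
def S_R : Prop := ∀ g σ c k Om : ℝ, 0 < σ → g^2 + σ^2 = 1 → c^2 ≤ 1 → 0 ≤ k → 0 < 1 + g*k →
  0 < 1 - g*k → 0 ≤ Om →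
  (-1/σ^2 + g/(2*σ^2) * ((1+c)^2*k/(1+g*k) - (1-c)^2*k/(1-g*k))
    - 1/(2*σ) * ((1+c)^2 * (k/σ*((k*c-g)+Om*(c-g*k)) + σ*k^2)/(1+g*k)^2
        - (1-c)^2 * (k/σ*((k*c-g)+Om*(c-g*k)) - σ*k^2)/(1-g*k)^2))
    + (g/σ - ((1+c)^2*k/(1+g*k) - (1-c)^2*k/(1-g*k))/(2*σ))^2 + 1
    + (1-c^2)/4 * (k/σ*((1+c)/(1+g*k) + (1-c)/(1-g*k)))^2 ≤ 0

/-- the Riccati inequality along a path -/
def S_F0 : Prop := ∀ (c c' q x : ℝ → ℝ),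
  (∀ s, HasDerivAt c (c' s) s) → (∀ s, c s ^ 2 ≤ 1) → (∀ s, 0 ≤ q s) →
  (∀ s, c' s ^ 2 ≤ q s * (1 - c s ^ 2)) → (∀ s, HasDerivAt x (c s) s) →
  ∀ s ∈ Ioo (0:ℝ) Real.pi, x s < s → x s < Real.pi - s →
  ∃ u' : ℝ, HasDerivAt (fun r => Uf r (kf (x r / Real.sin r)) (c r)) u' s ∧
    u' + (Uf s (kf (x s / Real.sin s)) (c s))^2 + 1 ≤ q s

def S_F : Prop := ∀ (c c' q x φ φ' : ℝ → ℝ),
  (∀ s, HasDerivAt c (c' s) s) → (∀ s, c s ^ 2 ≤ 1) → (∀ s, 0 ≤ q s) → Continuous q →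
  (∀ s, c' s ^ 2 ≤ q s * (1 - c s ^ 2)) → (∀ s, HasDerivAt x (c s) s) →
  (∀ s, HasDerivAt φ (φ' s) s) → Continuous φ' →
  ∀ s₁ S : ℝ, 0 < s₁ → s₁ ≤ S → S < Real.pi → (∀ s ∈ Icc s₁ S, x s < s ∧ x s < Real.pi - s) →
  φ S ^ 2 * Uf S (kf (x S / Real.sin S)) (c S) - φ s₁ ^ 2 * Uf s₁ (kf (x s₁ / Real.sin s₁)) (c s₁)
    ≤ ∫ s in s₁..S, (φ' s ^ 2 + q s * φ s ^ 2 - φ s ^ 2)

/-- the start estimate -/
def S_E : Prop := ∀ (c c' x : ℝ → ℝ),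
  (∀ s, HasDerivAt c (c' s) s) → Continuous c' → (∀ s, c s ^ 2 ≤ 1) →
  (∀ s, HasDerivAt x (c s) s) → x 0 = 0 → c 0 = 1 →
  ∀ ε : ℝ, 0 < ε → ∃ s₀ : ℝ, 0 < s₀ ∧ ∀ s ∈ Ioo 0 s₀,
    Uf s (kf ((x s - s^3) / Real.sin s)) (c s) ≤ ε

/-- the forward theorem -/
def S_FT : Prop := ∀ (c c' q x φ φ' : ℝ → ℝ),
  (∀ s, HasDerivAt c (c' s) s) → Continuous c' → (∀ s, c s ^ 2 ≤ 1) → (∀ s, 0 ≤ q s) →
  Continuous q → (∀ s, c' s ^ 2 ≤ q s * (1 - c s ^ 2)) → (∀ s, HasDerivAt x (c s) s) →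
  (∀ s, HasDerivAt φ (φ' s) s) → Continuous φ' → x 0 = 0 → c 0 = 1 →
  ∀ S : ℝ, 0 < S → S < Real.pi → x S < S → (∀ s ∈ Ioc 0 S, x s < Real.pi - s) →
  φ S ^ 2 * Uf S (kf (x S / Real.sin S)) (c S)
    ≤ ∫ s in (0:ℝ)..S, (φ' s ^ 2 + q s * φ s ^ 2 - φ s ^ 2)

/-- forward bounds for an arc starting at `0`: at time `π/2`, and at a time where `x ≤ 0` -/
def S_QZ : Prop := ∀ (c c' q x φ φ' : ℝ → ℝ),
  (∀ s, HasDerivAt c (c' s) s) → Continuous c' → (∀ s, c s ^ 2 ≤ 1) → (∀ s, 0 ≤ q s) →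
  Continuous q → (∀ s, c' s ^ 2 ≤ q s * (1 - c s ^ 2)) → (∀ s, HasDerivAt x (c s) s) →
  (∀ s, HasDerivAt φ (φ' s) s) → Continuous φ' → x 0 = 0 → c 0 = 1 →
  (x (Real.pi/2) < Real.pi/2 → -(2 * c (Real.pi/2) * kf (x (Real.pi/2)) * φ (Real.pi/2) ^ 2)
    ≤ ∫ s in (0:ℝ)..(Real.pi/2), (φ' s ^ 2 + q s * φ s ^ 2 - φ s ^ 2)) ∧
  (∀ S : ℝ, 0 < S → S < Real.pi → x S ≤ 0 → φ S ^ 2 * (Real.cos S / Real.sin S)
    ≤ ∫ s in (0:ℝ)..S, (φ' s ^ 2 + q s * φ s ^ 2 - φ s ^ 2))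

/-- A half turn `[p, p+π]` of the curve `γ` (with unit tangent `T = γ'`) is balanced if either the
condition at the midpoint `q = p + π/2` holds, with `x₁ = ⟪γ q - γ p, T p⟫`,
`x₂ = ⟪γ (p+π) - γ q, T (p+π)⟫`, or some point `s` of it satisfies `⟪γ s - γ p, T p⟫ ≤ 0` and
`⟪γ (p+π) - γ s, T (p+π)⟫ ≤ 0`. -/
def Balanced {n : ℕ} (γ T : ℝ → EuclideanSpace ℝ (Fin n)) (p : ℝ) : Prop :=
  (inner ℝ (γ (p + Real.pi/2) - γ p) (T p) < Real.pi/2 ∧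
    inner ℝ (γ (p + Real.pi) - γ (p + Real.pi/2)) (T (p + Real.pi)) < Real.pi/2 ∧
    inner ℝ (T (p + Real.pi/2)) (T p) * kf (inner ℝ (γ (p + Real.pi/2) - γ p) (T p))
      + inner ℝ (T (p + Real.pi/2)) (T (p + Real.pi))
        * kf (inner ℝ (γ (p + Real.pi) - γ (p + Real.pi/2)) (T (p + Real.pi))) ≤ 0) ∨
  (∃ s ∈ Ioo p (p + Real.pi), inner ℝ (γ s - γ p) (T p) ≤ 0 ∧
    inner ℝ (γ (p + Real.pi) - γ s) (T (p + Real.pi)) ≤ 0)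

/-- the half turn theorem -/
def S_H : Prop := ∀ (n : ℕ) (γ T T' : ℝ → EuclideanSpace ℝ (Fin n)) (φ φ' : ℝ → ℝ),
  (∀ s, HasDerivAt γ (T s) s) → (∀ s, HasDerivAt T (T' s) s) → Continuous T' →
  (∀ s, ‖T s‖ = 1) → (∀ s, HasDerivAt φ (φ' s) s) → Continuous φ' →
  ∀ p : ℝ, Balanced γ T p →
  0 ≤ ∫ s in p..(p + Real.pi), (φ' s ^ 2 + ‖T' s‖ ^ 2 * φ s ^ 2 - φ s ^ 2)

/-- the criterion for closed curves -/
def S_G : Prop := ∀ (n : ℕ) (γ : ℝ → EuclideanSpace ℝ (Fin n)), ContDiff ℝ 2 γ →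
  Function.Periodic γ (2 * Real.pi) → (∀ s : ℝ, ‖deriv γ s‖ = 1) →
  (∃ p : ℝ, Balanced γ (deriv γ) p ∧ Balanced γ (deriv γ) (p + Real.pi)) →
  ∀ φ : ℝ → ℝ, ContDiff ℝ 1 φ → Function.Periodic φ (2 * Real.pi) →
    (∫ s in (0 : ℝ)..(2 * Real.pi), (φ s) ^ 2) ≤
      ∫ s in (0 : ℝ)..(2 * Real.pi), ((deriv φ s) ^ 2 + ‖deriv (deriv γ) s‖ ^ 2 * (φ s) ^ 2)

/-- Opposite (or equal) tangents at arclength distance `π`, orthogonal to the chord: both half turns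
are balanced. -/
def S_C1 : Prop := ∀ (n : ℕ) (γ : ℝ → EuclideanSpace ℝ (Fin n)), ContDiff ℝ 2 γ →
  Function.Periodic γ (2 * Real.pi) → (∀ s : ℝ, ‖deriv γ s‖ = 1) → ∀ p : ℝ,
  (deriv γ (p + Real.pi) = -deriv γ p ∨ deriv γ (p + Real.pi) = deriv γ p) →
  inner ℝ (γ (p + Real.pi) - γ p) (deriv γ p) = 0 →
  Balanced γ (deriv γ) p ∧ Balanced γ (deriv γ) (p + Real.pi)

/-- curves with a mirror hyperplane -/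
def S_C2 : Prop := ∀ (n : ℕ) (γ : ℝ → EuclideanSpace ℝ (Fin n)), ContDiff ℝ 2 γ →
  Function.Periodic γ (2 * Real.pi) → (∀ s : ℝ, ‖deriv γ s‖ = 1) →
  ∀ (e : EuclideanSpace ℝ (Fin n)) (h p : ℝ), ‖e‖ = 1 →
  (∀ s, γ (p - s) = γ (p + s) - (2 * (inner ℝ (γ (p + s)) (e) - h)) • e) →
  (deriv γ (p + Real.pi) = -deriv γ p ∨ deriv γ (p + Real.pi) = deriv γ p) ∧
  inner ℝ (γ (p + Real.pi) - γ p) (deriv γ p) = 0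

/-- curves with a centre of symmetry -/
def S_C3 : Prop := ∀ (n : ℕ) (γ : ℝ → EuclideanSpace ℝ (Fin n)), ContDiff ℝ 2 γ →
  Function.Periodic γ (2 * Real.pi) → (∀ s : ℝ, ‖deriv γ s‖ = 1) →
  ∀ z : EuclideanSpace ℝ (Fin n), (∀ s, γ (s + Real.pi) = z - γ s) →
  ∃ p : ℝ, deriv γ (p + Real.pi) = -deriv γ p ∧
  inner ℝ (γ (p + Real.pi) - γ p) (deriv γ p) = 0

end Pool.Agent.H421R2.OV
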