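import Pool.Agent.H421R2.OV.Defs

open MeasureTheory Set Filter Topology intervalIntegral
open scoped ContDiff

namespace Pool.Agent.H421R2.OV

theorem G_periodic_deriv {E : Type*} [NormedAddCommGroup E] [NormedSpace ℝ E] {f : ℝ → E} {c : ℝ}
    (h : Function.Periodic f c) : Function.Periodic (deriv f) c := by
  intro x
  have h1 : (fun y => f (y + c)) = f := funext h
  have h2 := deriv_comp_add_const f c x
  rw [← h2]
  exact congrArg (fun g => deriv g x) h1

theorem t_G (hH : S_H) : S_G := by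
  intro n γ hγ hper hT hbal φ hφ hφper
  obtain ⟨p, hb1, hb2⟩ := hbal
  have hγ1 : ContDiff ℝ 1 (deriv γ) := by
    have h1 : ContDiff ℝ (1 + 1) γ := by
      have : ((1 : WithTop ℕ∞) + 1) = 2 := by norm_num
      rw [this]; exact hγ
    exact (contDiff_succ_iff_deriv.1 h1).2.2
  have hd1 : ∀ s, HasDerivAt γ (deriv γ s) s := fun s =>
    (hγ.differentiable (by norm_num)).differentiableAt.hasDerivAt
  have hd2 : ∀ s, HasDerivAt (deriv γ) (deriv (deriv γ) s) s := fun s =>
    (hγ1.differentiable (by norm_num)).differentiableAt.hasDerivAt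
  have hc2 : Continuous (deriv (deriv γ)) := hγ1.continuous_deriv le_rfl
  have hd3 : ∀ s, HasDerivAt φ (deriv φ s) s := fun s =>
    (hφ.differentiable (by norm_num)).differentiableAt.hasDerivAt
  have hc3 : Continuous (deriv φ) := hφ.continuous_deriv le_rfl
  have hc4 : Continuous φ := hφ.continuous
  have h1 := hH n γ (deriv γ) (deriv (deriv γ)) φ (deriv φ) hd1 hd2 hc2 hT hd3 hc3 p hb1
  have h2 := hH n γ (deriv γ) (deriv (deriv γ)) φ (deriv φ) hd1 hd2 hc2 hT hd3 hc3
    (p + Real.pi) hb2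
  set F : ℝ → ℝ := fun s => deriv φ s ^ 2 + ‖deriv (deriv γ) s‖ ^ 2 * φ s ^ 2 - φ s ^ 2 with hF
  have hFc : Continuous F := by
    rw [hF]
    exact ((hc3.pow 2).add ((hc2.norm.pow 2).mul (hc4.pow 2))).sub (hc4.pow 2)
  have hFper : Function.Periodic F (2 * Real.pi) := by
    intro s
    have e1 := G_periodic_deriv hφper s
    have e2 := G_periodic_deriv (G_periodic_deriv hper) s
    simp only [hF, e1, e2, hφper s]
  have h3 : ∫ s in p..(p + 2 * Real.pi), F s = ∫ s in (0 : ℝ)..(0 + 2 * Real.pi), F s :=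
    hFper.intervalIntegral_add_eq p 0
  have h4 : ∫ s in p..(p + 2 * Real.pi), F s =
      (∫ s in p..(p + Real.pi), F s) + ∫ s in (p + Real.pi)..(p + Real.pi + Real.pi), F s := by
    rw [intervalIntegral.integral_add_adjacent_intervals (hFc.intervalIntegrable _ _)
      (hFc.intervalIntegrable _ _)]
    congr 1
    ring
  have h5 : 0 ≤ ∫ s in (0 : ℝ)..(2 * Real.pi), F s := by
    have h6 : (0 : ℝ) + 2 * Real.pi = 2 * Real.pi := zero_add _
    rw [h6] at h3
    rw [← h3, h4]
    exact add_nonneg h1 h2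
  have h7 : ∫ s in (0 : ℝ)..(2 * Real.pi), F s =
      (∫ s in (0 : ℝ)..(2 * Real.pi), ((deriv φ s) ^ 2 + ‖deriv (deriv γ) s‖ ^ 2 * (φ s) ^ 2)) -
        ∫ s in (0 : ℝ)..(2 * Real.pi), (φ s) ^ 2 := by
    rw [← intervalIntegral.integral_sub]
    · exact ((hc3.pow 2).add ((hc2.norm.pow 2).mul (hc4.pow 2))).intervalIntegrable _ _
    · exact (hc4.pow 2).intervalIntegrable _ _
  rw [h7] at h5
  linarith

end Pool.Agent.H421R2.OV
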