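import Mathlib
import Pool.Agent.H421R2.OV.Defs

set_option autoImplicit false

open MeasureTheory Set Filter Topology intervalIntegral
open scoped ContDiff

namespace Pool.Agent.H421R2.OV

namespace HH

variable {n : ℕ} {γ T T' : ℝ → EuclideanSpace ℝ (Fin n)} {φ φ' : ℝ → ℝ}

theorem orth (hT : ∀ s, HasDerivAt T (T' s) s) (hn : ∀ s, ‖T s‖ = 1) (s : ℝ) :
    inner ℝ (T' s) (T s) = 0 := by
  have h1 : HasDerivAt (fun r => inner ℝ (T r) (T r)) (inner ℝ (T s) (T' s) + inner ℝ (T' s) (T s)) s :=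
    (hT s).inner ℝ (hT s)
  have h2 : (fun r => inner ℝ (T r) (T r)) = fun _ => (1 : ℝ) := by
    funext r
    rw [real_inner_self_eq_norm_sq, hn r]; norm_num
  rw [h2] at h1
  have h3 := h1.unique (hasDerivAt_const s (1 : ℝ))
  rw [real_inner_comm (T' s) (T s)] at h3
  linarith

theorem cs (hT : ∀ s, HasDerivAt T (T' s) s) (hn : ∀ s, ‖T s‖ = 1) (s : ℝ)
    (e : EuclideanSpace ℝ (Fin n)) (he : ‖e‖ = 1) :
    (inner ℝ (T' s) e) ^ 2 ≤ ‖T' s‖ ^ 2 * (1 - (inner ℝ (T s) e) ^ 2) := by
  have h0 := orth hT hn s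
  set a : ℝ := inner ℝ (T s) e with ha
  have h1 : inner ℝ (T' s) (e - a • T s) = inner ℝ (T' s) e := by
    rw [inner_sub_right, inner_smul_right, h0]; ring
  have h2 : ‖e - a • T s‖ ^ 2 = 1 - a ^ 2 := by
    rw [← real_inner_self_eq_norm_sq, inner_sub_left, inner_sub_right, inner_sub_right,
      inner_smul_left, inner_smul_right, inner_smul_right, inner_smul_left,
      real_inner_self_eq_norm_sq, real_inner_self_eq_norm_sq, he, hn s,
      real_inner_comm (T s) e, ← ha]
    simp only [conj_trivial]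
    ring
  have h3 : |inner ℝ (T' s) (e - a • T s)| ≤ ‖T' s‖ * ‖e - a • T s‖ := abs_real_inner_le_norm _ _
  rw [h1] at h3
  calc (inner ℝ (T' s) e) ^ 2 = |inner ℝ (T' s) e| ^ 2 := (sq_abs _).symm
    _ ≤ (‖T' s‖ * ‖e - a • T s‖) ^ 2 := by
        exact pow_le_pow_left₀ (abs_nonneg _) h3 2
    _ = ‖T' s‖ ^ 2 * (1 - a ^ 2) := by rw [mul_pow, h2]

/-- the integrand -/
noncomputable def FF (T' : ℝ → EuclideanSpace ℝ (Fin n)) (φ φ' : ℝ → ℝ) (s : ℝ) : ℝ :=
  φ' s ^ 2 + ‖T' s‖ ^ 2 * φ s ^ 2 - φ s ^ 2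

theorem half (hQZ : S_QZ) (hγ : ∀ s, HasDerivAt γ (T s) s) (hT : ∀ s, HasDerivAt T (T' s) s)
    (hT' : Continuous T') (hn : ∀ s, ‖T s‖ = 1) (hφ : ∀ s, HasDerivAt φ (φ' s) s)
    (hφ' : Continuous φ') (b σ : ℝ) (hσ : σ * σ = 1) :
    (σ * inner ℝ (γ (b + σ * (Real.pi/2)) - γ b) (T b) < Real.pi/2 →
      -(2 * inner ℝ (T (b + σ * (Real.pi/2))) (T b)
        * kf (σ * inner ℝ (γ (b + σ * (Real.pi/2)) - γ b) (T b)) * φ (b + σ * (Real.pi/2)) ^ 2)
      ≤ ∫ s in (0:ℝ)..(Real.pi/2), FF T' φ φ' (b + σ * s)) ∧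
    (∀ S : ℝ, 0 < S → S < Real.pi → σ * inner ℝ (γ (b + σ * S) - γ b) (T b) ≤ 0 →
      φ (b + σ * S) ^ 2 * (Real.cos S / Real.sin S)
        ≤ ∫ s in (0:ℝ)..S, FF T' φ φ' (b + σ * s)) := by
  have hlin : ∀ s : ℝ, HasDerivAt (fun r : ℝ => b + σ * r) σ s := by
    intro s
    have := ((hasDerivAt_id s).const_mul σ).const_add b
    simpa using this
  have hTc : ∀ s : ℝ, HasDerivAt (fun r => T (b + σ * r)) (σ • T' (b + σ * s)) s := by
    intro s
    exact (hT (b + σ * s)).scomp s (hlin s)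
  have hγc : ∀ s : ℝ, HasDerivAt (fun r => γ (b + σ * r)) (σ • T (b + σ * s)) s := by
    intro s
    exact (hγ (b + σ * s)).scomp s (hlin s)
  have hφc : ∀ s : ℝ, HasDerivAt (fun r => φ (b + σ * r)) (φ' (b + σ * s) * σ) s := by
    intro s
    exact (hφ (b + σ * s)).comp s (hlin s)
  have hcont : Continuous (fun s : ℝ => b + σ * s) := by fun_prop
  have key := hQZ (fun s => inner ℝ (T (b + σ * s)) (T b))
    (fun s => σ * inner ℝ (T' (b + σ * s)) (T b))
    (fun s => ‖T' (b + σ * s)‖ ^ 2)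
    (fun s => σ * inner ℝ (γ (b + σ * s) - γ b) (T b))
    (fun s => φ (b + σ * s)) (fun s => φ' (b + σ * s) * σ)
    (by
      intro s
      have h := (hTc s).inner ℝ (hasDerivAt_const s (T b))
      simp only [inner_zero_right, zero_add, inner_smul_left, conj_trivial] at h
      exact h)
    (by
      exact continuous_const.mul ((hT'.comp hcont).inner continuous_const))
    (by
      intro s
      have h1 : |inner ℝ (T (b + σ * s)) (T b)| ≤ ‖T (b + σ * s)‖ * ‖T b‖ :=
        abs_real_inner_le_norm _ _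
      rw [hn, hn, one_mul] at h1
      have := (sq_le_one_iff_abs_le_one _).2 h1
      exact this)
    (fun s => by positivity)
    (by exact ((hT'.comp hcont).norm).pow 2)
    (by
      intro s
      have h := cs hT hn (b + σ * s) (T b) (hn b)
      have h2 : (σ * inner ℝ (T' (b + σ * s)) (T b)) ^ 2 = (inner ℝ (T' (b + σ * s)) (T b)) ^ 2 := by
        rw [mul_pow, pow_two σ, hσ, one_mul]
      simp only [h2]
      exact h)
    (by
      intro s
      have h := (((hγc s).sub_const (γ b)).inner ℝ (hasDerivAt_const s (T b))).const_mul σ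
      simp only [inner_zero_right, zero_add, inner_smul_left, conj_trivial] at h
      rw [← mul_assoc, hσ, one_mul] at h
      exact h)
    hφc
    ((hφ'.comp hcont).mul continuous_const)
    (by simp)
    (by
      simp [hn b])
  have hint : ∀ s, (φ' (b + σ * s) * σ) ^ 2 + ‖T' (b + σ * s)‖ ^ 2 * φ (b + σ * s) ^ 2
      - φ (b + σ * s) ^ 2 = FF T' φ φ' (b + σ * s) := by
    intro s
    have : (φ' (b + σ * s) * σ) ^ 2 = φ' (b + σ * s) ^ 2 := by
      rw [mul_pow, pow_two σ, hσ, mul_one]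
    rw [this]; rfl
  simp only [hint] at key
  exact key

theorem FF_cont (hT' : Continuous T') (hφ : ∀ s, HasDerivAt φ (φ' s) s) (hφ' : Continuous φ') :
    Continuous (FF T' φ φ') := by
  have h1 : Continuous φ := continuous_iff_continuousAt.2 fun s => (hφ s).continuousAt
  unfold FF
  fun_prop

end HH

open HH in
theorem t_H (hQZ : S_QZ) : S_H := by
  intro n γ T T' φ φ' hγ hT hT' hn hφ hφ' p hbal
  have hF := half hQZ hγ hT hT' hn hφ hφ' p 1 (by norm_num)
  have hB := half hQZ hγ hT hT' hn hφ hφ' (p + Real.pi) (-1) (by norm_num)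
  have hc : Continuous (FF T' φ φ') := FF_cont hT' hφ hφ'
  have hFi : ∀ S : ℝ, (∫ s in (0:ℝ)..S, FF T' φ φ' (p + 1 * s)) = ∫ s in p..(p + S), FF T' φ φ' s := by
    intro S
    have := intervalIntegral.integral_comp_add_left (a := (0:ℝ)) (b := S) (FF T' φ φ') p
    simp only [one_mul, add_zero] at this ⊢
    exact this
  have hBi : ∀ S : ℝ, (∫ s in (0:ℝ)..S, FF T' φ φ' (p + Real.pi + (-1) * s))
      = ∫ s in (p + Real.pi - S)..(p + Real.pi), FF T' φ φ' s := by
    intro S
    have := intervalIntegral.integral_comp_sub_left (a := (0:ℝ)) (b := S) (FF T' φ φ') (p + Real.pi)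
    simp only [sub_zero] at this
    rw [← this]
    congr 1
    funext s
    congr 1
    ring
  change 0 ≤ ∫ s in p..(p + Real.pi), FF T' φ φ' s
  rcases hbal with ⟨h1, h2, h3⟩ | ⟨s, hs, h1, h2⟩
  · have e1 : p + 1 * (Real.pi/2) = p + Real.pi/2 := by ring
    have e2 : p + Real.pi + (-1) * (Real.pi/2) = p + Real.pi/2 := by ring
    have hF1 := hF.1
    have hB1 := hB.1
    rw [e1, one_mul] at hF1
    rw [e2] at hB1
    have hx2 : (-1 : ℝ) * inner ℝ (γ (p + Real.pi/2) - γ (p + Real.pi)) (T (p + Real.pi))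
        = inner ℝ (γ (p + Real.pi) - γ (p + Real.pi/2)) (T (p + Real.pi)) := by
      rw [← neg_sub (γ (p + Real.pi)) (γ (p + Real.pi/2)), inner_neg_left]; ring
    rw [hx2] at hB1
    have a1 := hF1 h1
    have a2 := hB1 h2
    rw [hFi] at a1
    rw [hBi] at a2
    have e3 : p + Real.pi - Real.pi/2 = p + Real.pi/2 := by ring
    rw [e3] at a2
    have hsum : (∫ s in p..(p + Real.pi/2), FF T' φ φ' s)
        + (∫ s in (p + Real.pi/2)..(p + Real.pi), FF T' φ φ' s)
        = ∫ s in p..(p + Real.pi), FF T' φ φ' s :=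
      intervalIntegral.integral_add_adjacent_intervals (hc.intervalIntegrable _ _)
        (hc.intervalIntegrable _ _)
    rw [← hsum]
    have hpos : 0 ≤ φ (p + Real.pi/2) ^ 2 := sq_nonneg _
    nlinarith [mul_nonneg hpos (neg_nonneg.2 h3)]
  · have hs1 : 0 < s - p := by linarith [hs.1]
    have hs2 : s - p < Real.pi := by linarith [hs.2]
    have hs3 : 0 < p + Real.pi - s := by linarith [hs.2]
    have hs4 : p + Real.pi - s < Real.pi := by linarith [hs.1]
    have hF2 := hF.2 (s - p) hs1 hs2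
    have hB2 := hB.2 (p + Real.pi - s) hs3 hs4
    have e1 : p + 1 * (s - p) = s := by ring
    have e2 : p + Real.pi + (-1) * (p + Real.pi - s) = s := by ring
    rw [e1, one_mul] at hF2
    rw [e2] at hB2
    have hx2 : (-1 : ℝ) * inner ℝ (γ s - γ (p + Real.pi)) (T (p + Real.pi))
        = inner ℝ (γ (p + Real.pi) - γ s) (T (p + Real.pi)) := by
      rw [← neg_sub (γ (p + Real.pi)) (γ s), inner_neg_left]; ring
    rw [hx2] at hB2
    have a1 := hF2 h1
    have a2 := hB2 h2
    rw [hFi] at a1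
    rw [hBi] at a2
    have e3 : p + Real.pi - (p + Real.pi - s) = s := by ring
    have e4 : p + (s - p) = s := by ring
    rw [e3] at a2
    rw [e4] at a1
    have hsum : (∫ s in p..s, FF T' φ φ' s) + (∫ s in s..(p + Real.pi), FF T' φ φ' s)
        = ∫ s in p..(p + Real.pi), FF T' φ φ' s :=
      intervalIntegral.integral_add_adjacent_intervals (hc.intervalIntegrable _ _)
        (hc.intervalIntegrable _ _)
    rw [← hsum]
    have hcos : Real.cos (p + Real.pi - s) = - Real.cos (s - p) := by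
      have : p + Real.pi - s = Real.pi - (s - p) := by ring
      rw [this, Real.cos_pi_sub]
    have hsin : Real.sin (p + Real.pi - s) = Real.sin (s - p) := by
      have : p + Real.pi - s = Real.pi - (s - p) := by ring
      rw [this, Real.sin_pi_sub]
    rw [hcos, hsin] at a2
    have : φ s ^ 2 * (Real.cos (s - p) / Real.sin (s - p))
        + φ s ^ 2 * (- Real.cos (s - p) / Real.sin (s - p)) = 0 := by ring
    linarith

end Pool.Agent.H421R2.OV
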