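import Mathlib
import Pool.Agent.H421R2.OV.Defs
import Pool.Agent.H421R2.OV.TH
import Pool.Agent.H421R2.OV.TG

/-!
# Arcs with a certificate, and closed curves divided into such arcs
-/

set_option autoImplicit false

open MeasureTheory Set Filter Topology intervalIntegral
open scoped ContDiff

namespace Pool.Agent.H421R2.OV

/-- The arc `[p, p']` of the curve `γ` (with unit tangent `T`) is certified: for some point `m` of it,
with `s₁ = m - p`, `s₂ = p' - m` (both less than `π`), `x₁ = ⟪γ m - γ p, T p⟫`,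
`x₂ = ⟪γ p' - γ m, T p'⟫`, `c₁ = ⟪T m, T p⟫`, `c₂ = ⟪T m, T p'⟫`, one has `xᵢ < sᵢ`, `xᵢ < π - sᵢ` and
`U(s₁, x₁, c₁) + U(s₂, x₂, c₂) ≥ 0`, where `U(s, x, c) = Uf s (kf (x / sin s)) c`. -/
def Certified {n : ℕ} (γ T : ℝ → EuclideanSpace ℝ (Fin n)) (p p' : ℝ) : Prop :=
  ∃ m : ℝ, p < m ∧ m < p' ∧ m - p < Real.pi ∧ p' - m < Real.pi ∧
    inner ℝ (γ m - γ p) (T p) < m - p ∧ inner ℝ (γ m - γ p) (T p) < Real.pi - (m - p) ∧
    inner ℝ (γ p' - γ m) (T p') < p' - m ∧ inner ℝ (γ p' - γ m) (T p') < Real.pi - (p' - m) ∧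
    0 ≤ Uf (m - p) (kf (inner ℝ (γ m - γ p) (T p) / Real.sin (m - p))) (inner ℝ (T m) (T p))
      + Uf (p' - m) (kf (inner ℝ (γ p' - γ m) (T p') / Real.sin (p' - m)))
          (inner ℝ (T m) (T p'))

namespace HH

variable {n : ℕ} {γ T T' : ℝ → EuclideanSpace ℝ (Fin n)} {φ φ' : ℝ → ℝ}

theorem quarter (hFT : S_FT) (hγ : ∀ s, HasDerivAt γ (T s) s) (hT : ∀ s, HasDerivAt T (T' s) s)
    (hT' : Continuous T') (hn : ∀ s, ‖T s‖ = 1) (hφ : ∀ s, HasDerivAt φ (φ' s) s)
    (hφ' : Continuous φ') (b σ : ℝ) (hσ : σ * σ = 1) (S : ℝ) (hS0 : 0 < S) (hSpi : S < Real.pi)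
    (h1 : σ * inner ℝ (γ (b + σ * S) - γ b) (T b) < S)
    (h2 : σ * inner ℝ (γ (b + σ * S) - γ b) (T b) < Real.pi - S) :
      φ (b + σ * S) ^ 2 * Uf S (kf (σ * inner ℝ (γ (b + σ * S) - γ b) (T b) / Real.sin S))
        (inner ℝ (T (b + σ * S)) (T b))
      ≤ ∫ s in (0:ℝ)..S, FF T' φ φ' (b + σ * s) := by
  have hlin : ∀ s : ℝ, HasDerivAt (fun r : ℝ => b + σ * r) σ s := by
    intro s
    have := ((hasDerivAt_id s).const_mul σ).const_add b
    simpa using this
  have hTc : ∀ s : ℝ, HasDerivAt (fun r => T (b + σ * r)) (σ • T' (b + σ * s)) s := by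
    intro s
    exact (hT (b + σ * s)).scomp s (hlin s)
  have hγc : ∀ s : ℝ, HasDerivAt (fun r => γ (b + σ * r)) (σ • T (b + σ * s)) s := by
    intro s
    exact (hγ (b + σ * s)).scomp s (hlin s)
  have hφc : ∀ s : ℝ, HasDerivAt (fun r => φ (b + σ * r)) (φ' (b + σ * s) * σ) s := by
    intro s
    exact (hφ (b + σ * s)).comp s (hlin s)
  have hcont : Continuous (fun s : ℝ => b + σ * s) := by fun_prop
  have hc1 : ∀ s, (inner ℝ (T (b + σ * s)) (T b)) ^ 2 ≤ (1:ℝ) := by
    intro s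
    have h1 : |inner ℝ (T (b + σ * s)) (T b)| ≤ ‖T (b + σ * s)‖ * ‖T b‖ :=
      abs_real_inner_le_norm _ _
    rw [hn, hn, one_mul] at h1
    exact (sq_le_one_iff_abs_le_one _).2 h1
  have hx : ∀ s, HasDerivAt (fun s => σ * inner ℝ (γ (b + σ * s) - γ b) (T b))
      (inner ℝ (T (b + σ * s)) (T b)) s := by
    intro s
    have h := (((hγc s).sub_const (γ b)).inner ℝ (hasDerivAt_const s (T b))).const_mul σ
    simp only [inner_zero_right, zero_add, inner_smul_left, conj_trivial] at h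
    rw [← mul_assoc, hσ, one_mul] at h
    exact h
  have hmono : Monotone fun s => s + σ * inner ℝ (γ (b + σ * s) - γ b) (T b) := by
    apply monotone_of_deriv_nonneg
    · exact fun s => ((hasDerivAt_id s).add (hx s)).differentiableAt
    · intro s
      have h1 : HasDerivAt (fun s => s + σ * inner ℝ (γ (b + σ * s) - γ b) (T b))
        (1 + inner ℝ (T (b + σ * s)) (T b)) s := (hasDerivAt_id s).add (hx s)
      rw [h1.deriv]
      have := hc1 s
      nlinarith
  have key := hFT (fun s => inner ℝ (T (b + σ * s)) (T b))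
    (fun s => σ * inner ℝ (T' (b + σ * s)) (T b))
    (fun s => ‖T' (b + σ * s)‖ ^ 2)
    (fun s => σ * inner ℝ (γ (b + σ * s) - γ b) (T b))
    (fun s => φ (b + σ * s)) (fun s => φ' (b + σ * s) * σ)
    (by
      intro s
      have h := (hTc s).inner ℝ (hasDerivAt_const s (T b))
      simp only [inner_zero_right, zero_add, inner_smul_left, conj_trivial] at h
      exact h)
    (by
      exact continuous_const.mul ((hT'.comp hcont).inner continuous_const))
    hc1
    (fun s => by positivity)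
    (by exact ((hT'.comp hcont).norm).pow 2)
    (by
      intro s
      have h := cs hT hn (b + σ * s) (T b) (hn b)
      have h2 : (σ * inner ℝ (T' (b + σ * s)) (T b)) ^ 2 = (inner ℝ (T' (b + σ * s)) (T b)) ^ 2 := by
        rw [mul_pow, pow_two σ, hσ, one_mul]
      simp only [h2]
      exact h)
    hx
    hφc
    ((hφ'.comp hcont).mul continuous_const)
    (by simp)
    (by
      simp [hn b])
    S hS0 hSpi h1
    (by
      intro s hs
      have := hmono hs.2
      simp only at this ⊢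
      linarith)
  have hint : ∀ s, (φ' (b + σ * s) * σ) ^ 2 + ‖T' (b + σ * s)‖ ^ 2 * φ (b + σ * s) ^ 2
      - φ (b + σ * s) ^ 2 = FF T' φ φ' (b + σ * s) := by
    intro s
    have : (φ' (b + σ * s) * σ) ^ 2 = φ' (b + σ * s) ^ 2 := by
      rw [mul_pow, pow_two σ, hσ, mul_one]
    rw [this]; rfl
  simp only [hint] at key
  exact key

theorem arc_nonneg (hFT : S_FT) (hγ : ∀ s, HasDerivAt γ (T s) s)
    (hT : ∀ s, HasDerivAt T (T' s) s)
    (hT' : Continuous T') (hn : ∀ s, ‖T s‖ = 1) (hφ : ∀ s, HasDerivAt φ (φ' s) s)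
    (hφ' : Continuous φ') (p p' : ℝ) (h : Certified γ T p p') :
    0 ≤ ∫ s in p..p', FF T' φ φ' s := by
  obtain ⟨m, hpm, hmp', hs1, hs2, ha1, ha2, hb1, hb2, hU⟩ := h
  have hc : Continuous (FF T' φ φ') := FF_cont hT' hφ hφ'
  have e1 : p + 1 * (m - p) = m := by ring
  have e2 : p' + (-1) * (p' - m) = m := by ring
  have hx2 : (-1 : ℝ) * inner ℝ (γ m - γ p') (T p') = inner ℝ (γ p' - γ m) (T p') := by
    rw [← neg_sub (γ p') (γ m), inner_neg_left]; ring
  have hF := quarter hFT hγ hT hT' hn hφ hφ' p 1 (by norm_num) (m - p) (by linarith) hs1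
    (by rw [e1, one_mul]; exact ha1) (by rw [e1, one_mul]; exact ha2)
  have hB := quarter hFT hγ hT hT' hn hφ hφ' p' (-1) (by norm_num) (p' - m) (by linarith) hs2
    (by rw [e2, hx2]; exact hb1) (by rw [e2, hx2]; exact hb2)
  rw [e1, one_mul] at hF
  rw [e2, hx2] at hB
  have hFi : (∫ s in (0:ℝ)..(m - p), FF T' φ φ' (p + 1 * s)) = ∫ s in p..m, FF T' φ φ' s := by
    have := intervalIntegral.integral_comp_add_left (a := (0:ℝ)) (b := m - p) (FF T' φ φ') p
    simp only [one_mul, add_zero, add_sub_cancel] at this ⊢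
    exact this
  have hBi : (∫ s in (0:ℝ)..(p' - m), FF T' φ φ' (p' + (-1) * s))
      = ∫ s in m..p', FF T' φ φ' s := by
    have := intervalIntegral.integral_comp_sub_left (a := (0:ℝ)) (b := p' - m) (FF T' φ φ') p'
    simp only [sub_zero, sub_sub_cancel] at this
    rw [← this]
    congr 1
    funext s
    congr 1
    ring
  rw [hFi] at hF
  rw [hBi] at hB
  have hsum : (∫ s in p..m, FF T' φ φ' s) + (∫ s in m..p', FF T' φ φ' s)
      = ∫ s in p..p', FF T' φ φ' s :=
    intervalIntegral.integral_add_adjacent_intervals (hc.intervalIntegrable _ _)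
      (hc.intervalIntegrable _ _)
  rw [← hsum]
  have hpos : 0 ≤ φ m ^ 2 := sq_nonneg _
  nlinarith [mul_nonneg hpos hU]

end HH

/-- closed curves divided into certified arcs -/
theorem chain (hFT : S_FT) (n : ℕ) (γ : ℝ → EuclideanSpace ℝ (Fin n)) (hγ : ContDiff ℝ 2 γ)
    (hper : Function.Periodic γ (2 * Real.pi)) (hT : ∀ s : ℝ, ‖deriv γ s‖ = 1)
    (hcert : ∃ (N : ℕ) (p : ℕ → ℝ), p N = p 0 + 2 * Real.pi ∧
      ∀ i < N, Certified γ (deriv γ) (p i) (p (i + 1)))
    (φ : ℝ → ℝ) (hφ : ContDiff ℝ 1 φ) (hφper : Function.Periodic φ (2 * Real.pi)) :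
    (∫ s in (0 : ℝ)..(2 * Real.pi), (φ s) ^ 2) ≤
      ∫ s in (0 : ℝ)..(2 * Real.pi), ((deriv φ s) ^ 2 + ‖deriv (deriv γ) s‖ ^ 2 * (φ s) ^ 2) := by
  obtain ⟨N, p, hpN, hp⟩ := hcert
  have hγ1 : ContDiff ℝ 1 (deriv γ) := by
    have h1 : ContDiff ℝ (1 + 1) γ := by
      have : ((1 : WithTop ℕ∞) + 1) = 2 := by norm_num
      rw [this]; exact hγ
    exact (contDiff_succ_iff_deriv.1 h1).2.2
  have hd1 : ∀ s, HasDerivAt γ (deriv γ s) s := fun s =>
    (hγ.differentiable (by norm_num)).differentiableAt.hasDerivAt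
  have hd2 : ∀ s, HasDerivAt (deriv γ) (deriv (deriv γ) s) s := fun s =>
    (hγ1.differentiable (by norm_num)).differentiableAt.hasDerivAt
  have hc2 : Continuous (deriv (deriv γ)) := hγ1.continuous_deriv le_rfl
  have hd3 : ∀ s, HasDerivAt φ (deriv φ s) s := fun s =>
    (hφ.differentiable (by norm_num)).differentiableAt.hasDerivAt
  have hc3 : Continuous (deriv φ) := hφ.continuous_deriv le_rfl
  have hc4 : Continuous φ := hφ.continuous
  set F : ℝ → ℝ := fun s => deriv φ s ^ 2 + ‖deriv (deriv γ) s‖ ^ 2 * φ s ^ 2 - φ s ^ 2 with hF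
  have hFc : Continuous F := by
    rw [hF]
    exact ((hc3.pow 2).add ((hc2.norm.pow 2).mul (hc4.pow 2))).sub (hc4.pow 2)
  have harc : ∀ i < N, 0 ≤ ∫ s in (p i)..(p (i + 1)), F s := fun i hi =>
    HH.arc_nonneg hFT hd1 hd2 hc2 hT hd3 hc3 (p i) (p (i + 1)) (hp i hi)
  have htot : ∀ k ≤ N, 0 ≤ ∫ s in (p 0)..(p k), F s := by
    intro k
    induction k with
    | zero => intro _; simp
    | succ k ih =>
      intro hk
      have h1 := ih (by omega)
      have h2 := harc k (by omega)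
      rw [← intervalIntegral.integral_add_adjacent_intervals (hFc.intervalIntegrable (p 0) (p k))
        (hFc.intervalIntegrable _ _)]
      exact add_nonneg h1 h2
  have hFper : Function.Periodic F (2 * Real.pi) := by
    intro s
    have e1 := G_periodic_deriv hφper s
    have e2 := G_periodic_deriv (G_periodic_deriv hper) s
    simp only [hF, e1, e2, hφper s]
  have h3 : ∫ s in (p 0)..(p 0 + 2 * Real.pi), F s = ∫ s in (0 : ℝ)..(0 + 2 * Real.pi), F s :=
    hFper.intervalIntegral_add_eq (p 0) 0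
  have h5 : 0 ≤ ∫ s in (0 : ℝ)..(2 * Real.pi), F s := by
    have h6 : (0 : ℝ) + 2 * Real.pi = 2 * Real.pi := zero_add _
    rw [h6] at h3
    rw [← h3, ← hpN]
    exact htot N le_rfl
  have h7 : ∫ s in (0 : ℝ)..(2 * Real.pi), F s =
      (∫ s in (0 : ℝ)..(2 * Real.pi), ((deriv φ s) ^ 2 + ‖deriv (deriv γ) s‖ ^ 2 * (φ s) ^ 2)) -
        ∫ s in (0 : ℝ)..(2 * Real.pi), (φ s) ^ 2 := by
    rw [← intervalIntegral.integral_sub]
    · exact ((hc3.pow 2).add ((hc2.norm.pow 2).mul (hc4.pow 2))).intervalIntegrable _ _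
    · exact (hc4.pow 2).intervalIntegrable _ _
  rw [h7] at h5
  linarith

end Pool.Agent.H421R2.OV
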