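import Pool.Agent.H421R2.OV.Defs

/-!
# The derivative of `Af`; continuity of `Ap`
-/

open MeasureTheory Set Filter Topology intervalIntegral

namespace Pool.Agent.H421R2.OV

theorem A1_D_pos {K t : ℝ} (hK : 0 < K) (ht : t ∈ Icc (0:ℝ) 1) : 1 ≤ t^2 + 2*K*t + 1 := by
  have := mul_nonneg (mul_nonneg (by norm_num : (0:ℝ) ≤ 2) hK.le) ht.1
  nlinarith [sq_nonneg t]

theorem A1_int2 {K : ℝ} (hK : 0 < K) :
    IntervalIntegrable (fun t : ℝ => 2 / (t^2 + 2*K*t + 1)) volume 0 1 := by
  refine ContinuousOn.intervalIntegrable ?_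
  rw [uIcc_of_le (zero_le_one' ℝ)]
  refine ContinuousOn.div (by fun_prop) (by fun_prop) fun t ht => ?_
  have := A1_D_pos hK ht
  positivity

theorem A1_int4 {K : ℝ} (hK : 0 < K) :
    IntervalIntegrable (fun t : ℝ => -(4*t) / (t^2 + 2*K*t + 1)^2) volume 0 1 := by
  refine ContinuousOn.intervalIntegrable ?_
  rw [uIcc_of_le (zero_le_one' ℝ)]
  refine ContinuousOn.div (by fun_prop) (by fun_prop) fun t ht => ?_
  have := A1_D_pos hK ht
  positivity

theorem t_A1 : S_A1 := by
  intro K hK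
  have huI : Set.uIoc (0:ℝ) 1 = Ioc 0 1 := uIoc_of_le zero_le_one
  refine (hasDerivAt_integral_of_dominated_loc_of_deriv_le (μ := volume)
    (F := fun K t => 2 / (t^2 + 2*K*t + 1)) (F' := fun K t => -(4*t) / (t^2 + 2*K*t + 1)^2)
    (x₀ := K) (s := Ioi 0) (bound := fun _ => 4) (Ioi_mem_nhds hK) ?_ (A1_int2 hK) ?_ ?_ ?_ ?_).2
  · filter_upwards [Ioi_mem_nhds hK] with x hx
    rw [huI]
    exact (A1_int2 hx).1.aestronglyMeasurable
  · rw [huI]
    exact (A1_int4 hK).1.aestronglyMeasurable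
  · refine Eventually.of_forall fun t ht x hx => ?_
    rw [huI] at ht
    have hD := A1_D_pos (show 0 < x from hx) ⟨ht.1.le, ht.2⟩
    rw [Real.norm_eq_abs, abs_div, abs_neg, abs_of_nonneg (by linarith [ht.1] : 0 ≤ 4*t),
      abs_of_nonneg (by positivity), div_le_iff₀ (by positivity)]
    nlinarith [ht.2, one_le_pow₀ hD (n := 2)]
  · exact intervalIntegrable_const
  · refine Eventually.of_forall fun t ht x hx => ?_
    rw [huI] at ht
    have hD := A1_D_pos (show 0 < x from hx) ⟨ht.1.le, ht.2⟩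
    have hD' : t^2 + 2*x*t + 1 ≠ 0 := by positivity
    have e1 : HasDerivAt (fun _ : ℝ => (2:ℝ)) 0 x := hasDerivAt_const x 2
    have e2 : HasDerivAt (fun x : ℝ => t^2 + 2*x*t + 1) (2*t) x := by
      have := ((((hasDerivAt_id x).const_mul 2).mul_const t).const_add (t^2)).add_const 1
      simpa using this
    refine (e1.div e2 hD').congr_deriv ?_
    ring

theorem t_A2 : S_A2 := by
  have h1 : Continuous fun K : ℝ => ∫ t in (0:ℝ)..1, -(4*(abs t)) / (t^2 + 2*(abs K)*(abs t) + 1)^2 := by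
    refine continuous_parametric_intervalIntegral_of_continuous' ?_ 0 1
    refine Continuous.div (by fun_prop) (by fun_prop) fun z => ?_
    positivity
  refine h1.continuousOn.congr fun K hK => ?_
  unfold Ap
  refine integral_congr fun t ht => ?_
  rw [uIcc_of_le (zero_le_one' ℝ)] at ht
  simp only [abs_of_nonneg ht.1, abs_of_pos (show 0 < K from hK)]

end Pool.Agent.H421R2.OV
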