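import Pool.Agent.H421R2.OV.Defs

/-!
# The ODE of `Af`
-/

open MeasureTheory Set Filter Topology intervalIntegral

namespace Pool.Agent.H421R2.OV

theorem A3_D_pos {K t : ℝ} (hK : 0 < K) (ht : t ∈ Icc (0:ℝ) 1) : 1 ≤ t^2 + 2*K*t + 1 := by
  have := mul_nonneg (mul_nonneg (by norm_num : (0:ℝ) ≤ 2) hK.le) ht.1
  nlinarith [sq_nonneg t]

theorem A3_int2 {K : ℝ} (hK : 0 < K) :
    IntervalIntegrable (fun t : ℝ => 2 / (t^2 + 2*K*t + 1)) volume 0 1 := by
  refine ContinuousOn.intervalIntegrable ?_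
  rw [uIcc_of_le (zero_le_one' ℝ)]
  refine ContinuousOn.div (by fun_prop) (by fun_prop) fun t ht => ?_
  have := A3_D_pos hK ht
  positivity

theorem A3_int4 {K : ℝ} (hK : 0 < K) :
    IntervalIntegrable (fun t : ℝ => -(4*t) / (t^2 + 2*K*t + 1)^2) volume 0 1 := by
  refine ContinuousOn.intervalIntegrable ?_
  rw [uIcc_of_le (zero_le_one' ℝ)]
  refine ContinuousOn.div (by fun_prop) (by fun_prop) fun t ht => ?_
  have := A3_D_pos hK ht
  positivity

theorem t_A3 : S_A3 := by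
  intro K hK
  have h1 : ∫ t in (0:ℝ)..1, ((1 - K^2) * (-(4*t) / (t^2 + 2*K*t + 1)^2)
      - K * (2 / (t^2 + 2*K*t + 1))) =
      (2*K*1+2)/(1^2 + 2*K*1 + 1) - (2*K*0+2)/(0^2 + 2*K*0 + 1) := by
    refine integral_eq_sub_of_hasDerivAt (f := fun t => (2*K*t+2)/(t^2 + 2*K*t + 1)) ?_ ?_
    · intro t ht
      rw [uIcc_of_le (zero_le_one' ℝ)] at ht
      have hD := A3_D_pos hK ht
      have hD' : t^2 + 2*K*t + 1 ≠ 0 := by positivity
      have e1 : HasDerivAt (fun t : ℝ => 2*K*t+2) (2*K) t := by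
        simpa using ((hasDerivAt_id t).const_mul (2*K)).add_const 2
      have e2 : HasDerivAt (fun t : ℝ => t^2 + 2*K*t + 1) (2*t + 2*K) t := by
        have := (((hasDerivAt_pow 2 t)).add ((hasDerivAt_id t).const_mul (2*K))).add_const 1
        simpa using this
      refine (e1.div e2 hD').congr_deriv ?_
      field_simp
      ring
    · exact ((A3_int4 hK).const_mul _).sub ((A3_int2 hK).const_mul _)
  rw [integral_sub ((A3_int4 hK).const_mul _) ((A3_int2 hK).const_mul _),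
    intervalIntegral.integral_const_mul, intervalIntegral.integral_const_mul] at h1
  have h2 : (2*K*1+2)/(1^2 + 2*K*1 + 1) - (2*K*0+2)/(0^2 + 2*K*0 + 1) = -1 := by
    have : (1:ℝ)^2 + 2*K*1 + 1 ≠ 0 := by positivity
    field_simp
    ring
  rw [h2] at h1
  unfold Ap Af
  linarith

end Pool.Agent.H421R2.OV
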