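import Pool.Agent.H421R2.OV.Defs

/-!
# Bounds of `Ap`
-/

open MeasureTheory Set Filter Topology intervalIntegral

namespace Pool.Agent.H421R2.OV

theorem A4_D_pos {K t : ℝ} (hK : 0 < K) (ht : t ∈ Icc (0:ℝ) 1) : 1 + t^2 ≤ t^2 + 2*K*t + 1 := by
  have := mul_nonneg (mul_nonneg (by norm_num : (0:ℝ) ≤ 2) hK.le) ht.1
  linarith

theorem A4_D_le {K t : ℝ} (hK : 0 < K) (ht : t ∈ Icc (0:ℝ) 1) :
    t^2 + 2*K*t + 1 ≤ 2 + 2*K := by
  have h1 : t^2 ≤ 1 := by nlinarith [ht.1, ht.2]
  have h2 : K*t ≤ K := by nlinarith [ht.1, ht.2]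
  linarith

theorem A4_int4 {K : ℝ} (hK : 0 < K) :
    IntervalIntegrable (fun t : ℝ => -(4*t) / (t^2 + 2*K*t + 1)^2) volume 0 1 := by
  refine ContinuousOn.intervalIntegrable ?_
  rw [uIcc_of_le (zero_le_one' ℝ)]
  refine ContinuousOn.div (by fun_prop) (by fun_prop) fun t ht => ?_
  have := A4_D_pos hK ht
  have h0 : 0 < t^2 + 2*K*t + 1 := by linarith [sq_nonneg t]
  positivity

theorem A4_lo : ∫ t in (0:ℝ)..1, -(4*t) / (1 + t^2)^2 = -1 := by
  have h1 : ∫ t in (0:ℝ)..1, -(4*t) / (1 + t^2)^2 = 2/(1 + (1:ℝ)^2) - 2/(1 + (0:ℝ)^2) := by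
    refine integral_eq_sub_of_hasDerivAt (f := fun t : ℝ => 2/(1 + t^2)) ?_ ?_
    · intro t _
      have hD' : 1 + t^2 ≠ 0 := by positivity
      have e1 : HasDerivAt (fun _ : ℝ => (2:ℝ)) 0 t := hasDerivAt_const t 2
      have e2 : HasDerivAt (fun t : ℝ => 1 + t^2) (2*t) t := by
        simpa using (hasDerivAt_pow 2 t).const_add 1
      refine (e1.div e2 hD').congr_deriv ?_
      ring
    · refine Continuous.intervalIntegrable ?_ _ _
      refine Continuous.div (by fun_prop) (by fun_prop) fun t => ?_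
      positivity
  rw [h1]; norm_num

theorem t_A4 : S_A4 := by
  intro K hK
  have hle : (0:ℝ) ≤ 1 := zero_le_one
  constructor
  · rw [← A4_lo]
    refine integral_mono_on hle ?_ (A4_int4 hK) fun t ht => ?_
    · refine Continuous.intervalIntegrable ?_ _ _
      refine Continuous.div (by fun_prop) (by fun_prop) fun t => ?_
      positivity
    · have h1 := A4_D_pos hK ht
      have h2 : (1 + t^2)^2 ≤ (t^2 + 2*K*t + 1)^2 := pow_le_pow_left₀ (by positivity) h1 2
      rw [neg_div, neg_div, neg_le_neg_iff]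
      exact div_le_div_of_nonneg_left (by linarith [ht.1]) (by positivity) h2
  · have h1 : ∫ t in (0:ℝ)..1, -(4*t) / (2 + 2*K)^2 = -1 / (2 * (1+K)^2) := by
      have : (fun t : ℝ => -(4*t) / (2 + 2*K)^2) = fun t => (-4 / (2+2*K)^2) * t := by
        funext t; ring
      rw [this, intervalIntegral.integral_const_mul, integral_id]
      have : (1+K) ≠ 0 := by positivity
      have h3 : (2 + 2*K)^2 = 4 * (1+K)^2 := by ring
      rw [h3]
      field_simp
      norm_num
    rw [← h1]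
    refine integral_mono_on hle (A4_int4 hK) (Continuous.intervalIntegrable (by fun_prop) _ _)
      fun t ht => ?_
    have h2 := A4_D_le hK ht
    have h3 := A4_D_pos hK ht
    have h0 : 0 < t^2 + 2*K*t + 1 := by linarith [sq_nonneg t]
    have h4 : (t^2 + 2*K*t + 1)^2 ≤ (2 + 2*K)^2 := pow_le_pow_left₀ (by positivity) h2 2
    rw [neg_div, neg_div, neg_le_neg_iff]
    exact div_le_div_of_nonneg_left (by linarith [ht.1]) (by positivity) h4

end Pool.Agent.H421R2.OV
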