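import Pool.Agent.H421R2.OV.Defs

open MeasureTheory Set Filter Topology intervalIntegral

namespace Pool.Agent.H421R2.OV

theorem t_A5 : S_A5 := by
  rintro s ⟨hs0, hs1⟩
  have hpi := Real.pi_pos
  have hsin : 0 < Real.sin s := Real.sin_pos_of_pos_of_lt_pi hs0 (by linarith)
  have hcos : 0 < Real.cos s := Real.cos_pos_of_mem_Ioo ⟨by linarith, hs1⟩
  have hsc := Real.sin_sq_add_cos_sq s
  have hpos : ∀ t : ℝ, 0 < t ^ 2 + 2 * Real.cos s * t + 1 := by
    intro t
    nlinarith [sq_nonneg (t + Real.cos s), mul_pos hsin hsin]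
  have hderiv : ∀ t : ℝ, HasDerivAt
      (fun t => 2 / Real.sin s * Real.arctan ((t + Real.cos s) / Real.sin s))
      (2 / (t ^ 2 + 2 * Real.cos s * t + 1)) t := by
    intro t
    have h1 : HasDerivAt (fun t : ℝ => (t + Real.cos s) / Real.sin s) (1 / Real.sin s) t :=
      ((hasDerivAt_id t).add_const _).div_const _
    have h2 := (h1.arctan).const_mul (2 / Real.sin s)
    refine h2.congr_deriv ?_
    have h3 := hpos t
    have h4 : 1 + ((t + Real.cos s) / Real.sin s) ^ 2 =
        (t ^ 2 + 2 * Real.cos s * t + 1) / Real.sin s ^ 2 := by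
      field_simp
      nlinarith
    rw [h4]
    field_simp
  have hint : IntervalIntegrable (fun t : ℝ => 2 / (t ^ 2 + 2 * Real.cos s * t + 1)) volume 0 1 := by
    apply Continuous.intervalIntegrable
    exact continuous_const.div (by fun_prop) (fun t => (hpos t).ne')
  have hval := intervalIntegral.integral_eq_sub_of_hasDerivAt (fun t _ => hderiv t) hint
  have hA : Real.arctan ((0 + Real.cos s) / Real.sin s) = Real.pi / 2 - s := by
    have h1 : (0 + Real.cos s) / Real.sin s = Real.tan (Real.pi / 2 - s) := by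
      rw [Real.tan_pi_div_two_sub, Real.tan_eq_sin_div_cos, inv_div, zero_add]
    rw [h1, Real.arctan_tan (by linarith) (by linarith)]
  have hB : Real.arctan ((1 + Real.cos s) / Real.sin s) = Real.pi / 2 - s / 2 := by
    have hs2 : 0 < Real.sin (s / 2) := Real.sin_pos_of_pos_of_lt_pi (by linarith) (by linarith)
    have hc2 : 0 < Real.cos (s / 2) := Real.cos_pos_of_mem_Ioo ⟨by linarith, by linarith⟩
    have h1 : (1 + Real.cos s) / Real.sin s = Real.tan (Real.pi / 2 - s / 2) := by
      rw [Real.tan_pi_div_two_sub, Real.tan_eq_sin_div_cos, inv_div]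
      have e1 : Real.sin s = 2 * Real.sin (s / 2) * Real.cos (s / 2) := by
        rw [← Real.sin_two_mul]; congr 1; ring
      have e2 : Real.cos s = 2 * Real.cos (s / 2) ^ 2 - 1 := by
        rw [← Real.cos_two_mul]; congr 1; ring
      rw [e1, e2]
      field_simp
      ring
    rw [h1, Real.arctan_tan (by linarith) (by linarith)]
  unfold Af
  rw [hval, hA, hB]
  field_simp
  ring

end Pool.Agent.H421R2.OV
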