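import Pool.Agent.H421R2.OV.Defs

/-! A6: `Af` takes all values in `(0, π/2)`. -/

open MeasureTheory Set Filter Topology intervalIntegral
open scoped ContDiff

namespace Pool.Agent.H421R2.OV

lemma A6_int {K : ℝ} (hK : 0 < K) :
    IntervalIntegrable (fun t : ℝ => 2 / (t^2 + 2*K*t + 1)) volume 0 1 := by
  apply ContinuousOn.intervalIntegrable
  rw [uIcc_of_le zero_le_one]
  refine continuousOn_const.div (by fun_prop) fun t ht => ?_
  have : 0 ≤ 2 * K * t := by have := ht.1; positivity
  nlinarith [sq_nonneg t]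

/-- lower bound of `Af` -/
lemma A6_lower {K : ℝ} (hK : 0 < K) : Real.pi / 2 - 4 * K ≤ Af K := by
  have h1 : ∫ t in (0:ℝ)..1, (2 * (1 / (1 + t ^ 2)) - 4 * K) = Real.pi / 2 - 4 * K := by
    rw [intervalIntegral.integral_sub, intervalIntegral.integral_const_mul,
      integral_one_div_one_add_sq]
    · simp only [Real.arctan_one, Real.arctan_zero, intervalIntegral.integral_const, smul_eq_mul]
      ring
    · apply Continuous.intervalIntegrable
      refine continuous_const.mul (continuous_const.div (by fun_prop) fun t => ?_)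
      positivity
    · exact intervalIntegrable_const
  rw [← h1]
  unfold Af
  apply intervalIntegral.integral_mono_on zero_le_one
  · apply Continuous.intervalIntegrable
    refine (continuous_const.mul (continuous_const.div (by fun_prop) fun t => ?_)).sub
      continuous_const
    positivity
  · exact A6_int hK
  · intro t ht
    have h2 : 0 ≤ K * t := mul_nonneg hK.le ht.1
    have h3 : 0 < t ^ 2 + 2 * K * t + 1 := by nlinarith [sq_nonneg t]
    have h4 : 0 < 1 + t ^ 2 := by positivity
    obtain ⟨D, hD⟩ : ∃ D : ℝ, D = t ^ 2 + 2 * K * t + 1 := ⟨_, rfl⟩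
    rw [← hD] at h3 ⊢
    have hD1 : 1 ≤ D := by rw [hD]; nlinarith [sq_nonneg t]
    rw [← sub_nonneg]
    have : 2 / D - (2 * (1 / (1 + t ^ 2)) - 4 * K) =
        4 * K * ((1 + t ^ 2) * D - t) / ((1 + t ^ 2) * D) := by
      rw [eq_div_iff (by positivity)]
      field_simp
      linear_combination (-2 : ℝ) * hD
    rw [this]
    have h5 : t ≤ (1 + t ^ 2) * D := by
      have h6 : (1:ℝ) * 1 ≤ (1 + t ^ 2) * D :=
        mul_le_mul (by nlinarith [sq_nonneg t]) hD1 zero_le_one h4.le
      linarith [ht.2]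
    have h7 : 0 ≤ (1 + t ^ 2) * D - t := by linarith
    positivity

/-- upper bound of `Af` -/
lemma A6_upper {K : ℝ} (hK : 0 < K) : Af K ≤ Real.log (1 + 2 * K) / K := by
  have hpos : ∀ t ∈ Icc (0:ℝ) 1, 0 < 1 + 2 * K * t := fun t ht => by
    have : 0 ≤ 2 * K * t := by have := ht.1; positivity
    linarith
  have hc : IntervalIntegrable (fun t : ℝ => 2 / (1 + 2*K*t)) volume 0 1 := by
    apply ContinuousOn.intervalIntegrable
    rw [uIcc_of_le zero_le_one]
    exact continuousOn_const.div (by fun_prop) fun t ht => (hpos t ht).ne'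
  have h1 : ∫ t in (0:ℝ)..1, 2 / (1 + 2*K*t) = Real.log (1 + 2 * K) / K := by
    rw [intervalIntegral.integral_eq_sub_of_hasDerivAt
      (f := fun t => Real.log (1 + 2 * K * t) / K) _ hc]
    · simp
    · intro t ht
      rw [uIcc_of_le zero_le_one] at ht
      have h2 : HasDerivAt (fun t : ℝ => 1 + 2 * K * t) (2 * K) t := by
        simpa using ((hasDerivAt_id t).const_mul (2 * K)).const_add 1
      have h3 := (h2.log (hpos t ht).ne').div_const K
      have h4 : 2 / (1 + 2 * K * t) = 2 * K / (1 + 2 * K * t) / K := by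
        have := hpos t ht
        rw [div_right_comm, mul_div_cancel_right₀ _ hK.ne']
      rw [h4]
      exact h3
  rw [← h1]
  unfold Af
  apply intervalIntegral.integral_mono_on zero_le_one (A6_int hK) hc
  intro t ht
  have := hpos t ht
  apply div_le_div_of_nonneg_left (by norm_num) this
  nlinarith [sq_nonneg t]

theorem t_A6 (h1 : S_A1) : S_A6 := by
  intro y hy hy2
  set K1 : ℝ := (Real.pi / 2 - y) / 4 with hK1
  have hK1p : 0 < K1 := by rw [hK1]; linarith
  have hlow : y ≤ Af K1 := by
    have := A6_lower hK1p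
    rw [hK1] at this ⊢
    linarith
  have ht : Tendsto (fun x : ℝ => Real.log x / x) atTop (𝓝 0) :=
    Real.isLittleO_log_id_atTop.tendsto_div_nhds_zero
  obtain ⟨x, hx1, hx2⟩ := ((ht.eventually_lt_const (by positivity : (0:ℝ) < y / 4)).and
    (eventually_ge_atTop (2:ℝ))).exists
  set K2 : ℝ := (x - 1) / 2 with hK2
  have hK2p : 0 < K2 := by rw [hK2]; linarith
  have hup : Af K2 ≤ y := by
    have h2 := A6_upper hK2p
    have h3 : 1 + 2 * K2 = x := by rw [hK2]; ring
    rw [h3] at h2
    have h4 : x / 4 ≤ K2 := by rw [hK2]; linarith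
    have h5 : 0 ≤ Real.log x := Real.log_nonneg (by linarith)
    have h6 : Real.log x / K2 ≤ Real.log x / (x / 4) :=
      div_le_div_of_nonneg_left h5 (by linarith) h4
    have h7 : Real.log x / (x / 4) = 4 * (Real.log x / x) := by
      field_simp
    linarith
  have hc : ContinuousOn Af (uIcc K1 K2) := fun K hK =>
    (h1 K (lt_of_lt_of_le (lt_min hK1p hK2p) hK.1)).continuousAt.continuousWithinAt
  have hmem : y ∈ uIcc (Af K1) (Af K2) := by
    rw [mem_uIcc]; right; exact ⟨hup, hlow⟩
  obtain ⟨K, hK, hKy⟩ := intermediate_value_uIcc hc hmem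
  exact ⟨K, lt_of_lt_of_le (lt_min hK1p hK2p) hK.1, hKy⟩

end Pool.Agent.H421R2.OV
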