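import Pool.Agent.H421R2.OV.Defs

set_option autoImplicit false

open MeasureTheory Set Filter Topology intervalIntegral
open scoped ContDiff

namespace Pool.Agent.H421R2.OV

theorem A7_log_int (K : ℝ) (hK : 0 < K) :
    ∫ t in (0:ℝ)..1, K / (1 + K * t) = Real.log (1 + K) := by
  have hpos : ∀ t ∈ uIcc (0:ℝ) 1, 0 < 1 + K * t := by
    intro t ht
    rw [uIcc_of_le zero_le_one] at ht
    have : 0 ≤ K * t := mul_nonneg hK.le ht.1
    linarith
  have h : ∫ t in (0:ℝ)..1, K / (1 + K * t) =
      Real.log (1 + K * 1) - Real.log (1 + K * 0) := by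
    apply intervalIntegral.integral_eq_sub_of_hasDerivAt (f := fun t => Real.log (1 + K * t))
    · intro t ht
      have h1 : HasDerivAt (fun t : ℝ => 1 + K * t) K t := by
        simpa using ((hasDerivAt_id t).const_mul K).const_add 1
      exact h1.log (hpos t ht).ne'
    · apply ContinuousOn.intervalIntegrable
      refine ContinuousOn.div continuousOn_const (by fun_prop) fun t ht => (hpos t ht).ne'
  rw [h]
  simp

theorem A7_le (K : ℝ) (hK : 0 < K) : Real.log (1 + K) ≤ K * Af K := by
  rw [← A7_log_int K hK]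
  unfold Af
  rw [← intervalIntegral.integral_const_mul]
  have hpos : ∀ t ∈ Icc (0:ℝ) 1, 0 < t ^ 2 + 2 * K * t + 1 := by
    intro t ht
    have : 0 ≤ K * t := mul_nonneg hK.le ht.1
    nlinarith [sq_nonneg t]
  have hpos' : ∀ t ∈ Icc (0:ℝ) 1, 0 < 1 + K * t := by
    intro t ht
    have : 0 ≤ K * t := mul_nonneg hK.le ht.1
    linarith
  apply intervalIntegral.integral_mono_on zero_le_one
  · apply ContinuousOn.intervalIntegrable
    rw [uIcc_of_le zero_le_one]
    exact ContinuousOn.div continuousOn_const (by fun_prop) fun t ht => (hpos' t ht).ne'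
  · apply ContinuousOn.intervalIntegrable
    rw [uIcc_of_le zero_le_one]
    exact continuousOn_const.mul
      (ContinuousOn.div continuousOn_const (by fun_prop) fun t ht => (hpos t ht).ne')
  · intro t ht
    have h1 := hpos t ht
    have h2 := hpos' t ht
    rw [mul_div_assoc', div_le_div_iff₀ h2 h1]
    have h3 : t ^ 2 ≤ 1 := by
      have := ht.1; have := ht.2; nlinarith
    have h4 : t ^ 2 + 2 * K * t + 1 ≤ 2 * (1 + K * t) := by linarith
    calc K * (t ^ 2 + 2 * K * t + 1) ≤ K * (2 * (1 + K * t)) :=
          mul_le_mul_of_nonneg_left h4 hK.le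
      _ = K * 2 * (1 + K * t) := by ring

theorem t_A7 : S_A7 := by
  have h : Tendsto (fun K : ℝ => Real.log (1 + K)) atTop atTop :=
    Real.tendsto_log_atTop.comp (tendsto_atTop_add_const_left _ 1 tendsto_id)
  refine tendsto_atTop_mono' atTop ?_ h
  filter_upwards [eventually_gt_atTop 0] with K hK
  exact A7_le K hK

end Pool.Agent.H421R2.OV
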