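import Pool.Agent.H421R2.OV.Defs

open MeasureTheory Set Filter Topology intervalIntegral
open scoped ContDiff

namespace Pool.Agent.H421R2.OV

theorem t_A8 (h1 : S_A1) (h4 : S_A4) : S_A8 := by
  refine strictAntiOn_of_deriv_neg (convex_Ioi 0) ?_ ?_
  · intro K hK
    exact (h1 K hK).continuousAt.continuousWithinAt
  · intro K hK
    rw [interior_Ioi] at hK
    have hK0 : 0 < K := hK
    rw [(h1 K hK0).deriv]
    refine lt_of_le_of_lt (h4 K hK0).2 ?_
    apply div_neg_of_neg_of_pos (by norm_num)
    positivity

theorem t_A9 : S_A9 := by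
  intro K hK
  have hcont : ContinuousOn (fun t : ℝ => 2 / (t^2 + 2*K*t + 1)) (Icc 0 1) := by
    refine ContinuousOn.div continuousOn_const (by fun_prop) ?_
    intro t ht
    have h0 := ht.1
    positivity
  have hcont2 : ContinuousOn (fun t : ℝ => 2 / (1 + t^2)) (Icc 0 1) := by
    refine ContinuousOn.div continuousOn_const (by fun_prop) ?_
    intro t _
    positivity
  constructor
  · unfold Af
    refine intervalIntegral.intervalIntegral_pos_of_pos_on ?_ ?_ zero_lt_one
    · exact hcont.intervalIntegrable_of_Icc zero_le_one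
    · intro t ht
      have h0 := ht.1
      positivity
  · have h1 : ∫ t in (0:ℝ)..1, 2 / (1 + t^2) = Real.pi / 2 := by
      have h2 : ∀ t : ℝ, 2 / (1 + t^2) = 2 * (1 / (1 + t^2)) := fun t => by ring
      simp_rw [h2]
      rw [intervalIntegral.integral_const_mul, integral_one_div_one_add_sq, Real.arctan_one,
        Real.arctan_zero]
      ring
    rw [← h1]
    unfold Af
    refine intervalIntegral.integral_lt_integral_of_continuousOn_of_le_of_exists_lt zero_lt_one
      hcont hcont2 ?_ ⟨1, ⟨zero_le_one, le_rfl⟩, ?_⟩
    · intro t ht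
      have h0 := ht.1
      have h3 : 0 < 2 * K * t := by positivity
      exact div_le_div_of_nonneg_left zero_le_two (by positivity) (by linarith)
    · exact div_lt_div_of_pos_left two_pos (by norm_num) (by linarith)

end Pool.Agent.H421R2.OV
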