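import Pool.Agent.H421R2.OV.Defs

/-! Task C1 (helper514): parallel tangents orthogonal to the chord imply that both half turns are
balanced. -/

open MeasureTheory Set Filter Topology intervalIntegral

namespace Pool.Agent.H421R2.OV

namespace C1

/-- the quarter turn estimate -/
theorem quarter (X X' : ℝ → ℝ) (hX : ∀ s, HasDerivAt X (X' s) s) (h1 : ∀ s, |X' s| ≤ 1)
    (h0 : X 0 = 0) (hpi : X Real.pi = 0) : X (Real.pi / 2) < Real.pi / 2 := by
  by_contra hc
  rw [not_lt] at hc
  have m1 : Monotone (fun s => s - X s) := by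
    refine monotone_of_deriv_nonneg (fun s => ((hasDerivAt_id s).sub (hX s)).differentiableAt) ?_
    intro s
    have := ((hasDerivAt_id s).sub (hX s)).deriv
    have e : (fun s => s - X s) = id - X := rfl
    rw [e, this]
    have := (abs_le.1 (h1 s)).2
    linarith
  have m2 : Monotone (fun s => s + X s) := by
    refine monotone_of_deriv_nonneg (fun s => ((hasDerivAt_id s).add (hX s)).differentiableAt) ?_
    intro s
    have := ((hasDerivAt_id s).add (hX s)).deriv
    have e : (fun s => s + X s) = id + X := rfl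
    rw [e, this]
    have := (abs_le.1 (h1 s)).1
    linarith
  have hp := Real.pi_pos
  have b1 : X (Real.pi / 2) ≤ Real.pi / 2 := by
    have := m1 (by linarith : (0:ℝ) ≤ Real.pi / 2)
    simp only [h0] at this
    linarith
  have hv : X (Real.pi / 2) = Real.pi / 2 := le_antisymm b1 hc
  have l1 : IsLocalMax (fun s => X s - s) (Real.pi / 2) := by
    filter_upwards [Ioi_mem_nhds (by linarith : (0:ℝ) < Real.pi / 2)] with s hs
    have := m1 (le_of_lt hs)
    simp only [h0] at this
    rw [hv]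
    linarith
  have l2 : IsLocalMax (fun s => X s + s) (Real.pi / 2) := by
    filter_upwards [Iio_mem_nhds (by linarith : Real.pi / 2 < Real.pi)] with s hs
    have := m2 (le_of_lt hs)
    simp only [hpi] at this
    rw [hv]
    linarith
  have d1 := l1.hasDerivAt_eq_zero ((hX _).sub (hasDerivAt_id _))
  have d2 := l2.hasDerivAt_eq_zero ((hX _).add (hasDerivAt_id _))
  linarith

/-- a zero inside -/
theorem zero_inside (X X' : ℝ → ℝ) (hX : ∀ s, HasDerivAt X (X' s) s) (h1 : 0 < X' 0)
    (h2 : 0 < X' Real.pi) (h0 : X 0 = 0) (hpi : X Real.pi = 0) :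
    ∃ s ∈ Ioo 0 Real.pi, X s = 0 := by
  have hp := Real.pi_pos
  have e1 := eventually_nhdsWithin_sign_eq_of_deriv_pos (f := X) (x₀ := 0)
    (by rw [(hX 0).deriv]; exact h1) h0
  have e2 := eventually_nhdsWithin_sign_eq_of_deriv_pos (f := X) (x₀ := Real.pi)
    (by rw [(hX Real.pi).deriv]; exact h2) hpi
  have f1 : ∃ s ∈ Ioo 0 (Real.pi / 2), 0 < X s := by
    have h3 : ∀ᶠ s in 𝓝[>] (0:ℝ), s ∈ Ioo 0 (Real.pi / 2) :=
      Ioo_mem_nhdsGT (by linarith)
    obtain ⟨s, hs1, hs2⟩ := ((e1.filter_mono nhdsWithin_le_nhds).and h3).exists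
    refine ⟨s, hs2, ?_⟩
    rw [sub_zero, sign_pos hs2.1] at hs1
    exact sign_eq_one_iff.1 hs1
  have f2 : ∃ s ∈ Ioo (Real.pi / 2) Real.pi, X s < 0 := by
    have h3 : ∀ᶠ s in 𝓝[<] Real.pi, s ∈ Ioo (Real.pi / 2) Real.pi :=
      Ioo_mem_nhdsLT (by linarith)
    obtain ⟨s, hs1, hs2⟩ := ((e2.filter_mono nhdsWithin_le_nhds).and h3).exists
    refine ⟨s, hs2, ?_⟩
    rw [sign_neg (sub_neg.2 hs2.2)] at hs1
    exact sign_eq_neg_one_iff.1 hs1
  obtain ⟨s1, hs1, p1⟩ := f1
  obtain ⟨s2, hs2, p2⟩ := f2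
  have hc : ContinuousOn X (Icc s1 s2) := fun s _ => (hX s).continuousAt.continuousWithinAt
  have hle : s1 ≤ s2 := (hs1.2.trans hs2.1).le
  obtain ⟨s, hs, e⟩ := intermediate_value_Icc' hle hc ⟨p2.le, p1.le⟩
  exact ⟨s, ⟨hs1.1.trans_le hs.1, hs.2.trans_lt hs2.2⟩, e⟩

theorem half (n : ℕ) (γ T : ℝ → EuclideanSpace ℝ (Fin n)) (hγ : ∀ s, HasDerivAt γ (T s) s)
    (hT : ∀ s : ℝ, ‖T s‖ = 1) (p : ℝ)
    (hpar : T (p + Real.pi) = -T p ∨ T (p + Real.pi) = T p)
    (horth : inner ℝ (γ (p + Real.pi) - γ p) (T p) = 0) : Balanced γ T p := by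
  set X : ℝ → ℝ := fun s => inner ℝ (γ (p + s) - γ p) (T p) with hXdef
  have hX : ∀ s, HasDerivAt X (inner ℝ (T (p + s)) (T p)) s := by
    intro s
    have h1 : HasDerivAt (fun s => γ (p + s) - γ p) (T (p + s)) s := by
      have := (hγ (p + s)).scomp s ((hasDerivAt_id s).const_add p)
      rw [one_smul] at this
      exact this.sub_const _
    have h2 := h1.inner ℝ (hasDerivAt_const s (T p))
    simpa using h2
  have hX0 : X 0 = 0 := by simp [hXdef]
  have hXpi : X Real.pi = 0 := horth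
  have hb : ∀ s, |inner ℝ (T (p + s)) (T p)| ≤ 1 := by
    intro s
    have := abs_real_inner_le_norm (T (p + s)) (T p)
    rwa [hT, hT, one_mul] at this
  rcases hpar with h | h
  · left
    have hq := quarter X _ hX hb hX0 hXpi
    have e : inner ℝ (γ (p + Real.pi) - γ (p + Real.pi/2)) (T (p + Real.pi)) = X (Real.pi / 2) := by
      rw [h, inner_neg_right]
      have e1 : γ (p + Real.pi) - γ (p + Real.pi/2) =
          (γ (p + Real.pi) - γ p) - (γ (p + Real.pi/2) - γ p) := by abel
      rw [e1, inner_sub_left, horth]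
      simp [hXdef]
    have e2 : inner ℝ (γ (p + Real.pi/2) - γ p) (T p) = X (Real.pi / 2) := rfl
    rw [e, e2]
    refine ⟨hq, hq, ?_⟩
    rw [h, inner_neg_right]
    linarith
  · right
    have h11 : inner ℝ (T p) (T p) = (1 : ℝ) := by
      rw [real_inner_self_eq_norm_sq, hT, one_pow]
    obtain ⟨s, hs, hz⟩ := zero_inside X _ hX (by rw [add_zero, h11]; norm_num)
      (by rw [h, h11]; norm_num) hX0 hXpi
    refine ⟨p + s, ⟨by linarith [hs.1], by linarith [hs.2]⟩, le_of_eq hz, ?_⟩
    rw [h]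
    have e1 : γ (p + Real.pi) - γ (p + s) =
        (γ (p + Real.pi) - γ p) - (γ (p + s) - γ p) := by abel
    rw [e1, inner_sub_left, horth]
    have : inner ℝ (γ (p + s) - γ p) (T p) = (0:ℝ) := hz
    rw [this, sub_zero]

end C1

theorem t_C1 : S_C1 := by
  intro n γ hγ hper hT p hpar horth
  have hd : ∀ s, HasDerivAt γ (deriv γ s) s :=
    fun s => (hγ.differentiable (by norm_num) s).hasDerivAt
  have hTper : ∀ s, deriv γ (s + 2 * Real.pi) = deriv γ s := by
    intro s
    have e : (fun t => γ (t + 2 * Real.pi)) = γ := funext hper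
    have h1 : HasDerivAt (fun t => γ (t + 2 * Real.pi)) (deriv γ (s + 2 * Real.pi)) s := by
      have := (hd (s + 2 * Real.pi)).scomp s ((hasDerivAt_id s).add_const (2 * Real.pi))
      rw [one_smul] at this
      exact this
    rw [e] at h1
    exact h1.unique (hd s)
  have ep : p + Real.pi + Real.pi = p + 2 * Real.pi := by ring
  refine ⟨C1.half n γ _ hd hT p hpar horth, C1.half n γ _ hd hT (p + Real.pi) ?_ ?_⟩
  · rw [ep, hTper]
    rcases hpar with h | h
    · left; rw [h, neg_neg]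
    · right; rw [h]
  · rw [ep, hper p]
    have e : γ p - γ (p + Real.pi) = -(γ (p + Real.pi) - γ p) := by abel
    rw [e, inner_neg_left]
    rcases hpar with h | h
    · rw [h, inner_neg_right, horth]; simp
    · rw [h, horth]; simp

end Pool.Agent.H421R2.OV
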