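import Pool.Agent.H421R2.OV.Defs

open MeasureTheory Set Filter Topology intervalIntegral
open scoped ContDiff

namespace Pool.Agent.H421R2.OV

theorem t_C2 : S_C2 := by
  intro n γ hγ hper hunit e h p he hrel
  have hd : ∀ s, HasDerivAt γ (deriv γ s) s := fun s =>
    ((hγ.differentiable (by norm_num)) s).hasDerivAt
  have hper' : ∀ s, deriv γ (s + 2 * Real.pi) = deriv γ s := by
    intro s
    have h1 := deriv_comp_add_const γ (2 * Real.pi) s
    rw [← h1]
    congr 1
    funext x
    exact hper x
  have key : ∀ s, -(deriv γ (p - s))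
      = deriv γ (p + s) - (2 * (inner ℝ (deriv γ (p + s)) e)) • e := by
    intro s
    have h1 : HasDerivAt (fun s => γ (p - s)) (-(deriv γ (p - s))) s :=
      HasDerivAt.comp_const_sub p s (hd (p - s))
    have h2 : HasDerivAt (fun s => γ (p + s)) (deriv γ (p + s)) s :=
      HasDerivAt.comp_const_add p s (hd (p + s))
    have h3 : HasDerivAt (fun s => (inner ℝ (γ (p + s)) e : ℝ)) (inner ℝ (deriv γ (p + s)) e) s := by
      have := h2.inner ℝ (hasDerivAt_const s e)
      simpa using this
    have h4 : HasDerivAt (fun s => γ (p + s) - (2 * (inner ℝ (γ (p + s)) e - h)) • e)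
        (deriv γ (p + s) - (2 * (inner ℝ (deriv γ (p + s)) e)) • e) s := by
      exact h2.sub (((h3.sub_const h).const_mul 2).smul_const e)
    have h5 : (fun s => γ (p - s)) = fun s => γ (p + s) - (2 * (inner ℝ (γ (p + s)) e - h)) • e :=
      funext hrel
    rw [h5] at h1
    exact h1.unique h4
  have he2 : (inner ℝ e e : ℝ) = 1 := by
    rw [real_inner_self_eq_norm_sq, he]; norm_num
  have mult : ∀ v : EuclideanSpace ℝ (Fin n), ‖v‖ = 1 → -v = v - (2 * (inner ℝ v e)) • e →
      v = e ∨ v = -e := by
    intro v hv hve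
    have h1 : (2 : ℝ) • v = (2 * (inner ℝ v e : ℝ)) • e := by
      have : v + v = (2 * (inner ℝ v e : ℝ)) • e := by
        have := congrArg (fun x => x + v + (2 * (inner ℝ v e : ℝ)) • e) hve
        beta_reduce at this
        have l : -v + v + (2 * (inner ℝ v e : ℝ)) • e = (2 * (inner ℝ v e : ℝ)) • e := by
          rw [neg_add_cancel, zero_add]
        rw [l] at this
        rw [this]
        abel
      rw [two_smul, this]
    have h2 : v = (inner ℝ v e : ℝ) • e := by
      have := congrArg (fun x => (1 / 2 : ℝ) • x) h1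
      simp only [smul_smul] at this
      norm_num at this
      have e3 : (1 / 2 : ℝ) * (2 * (inner ℝ v e : ℝ)) = inner ℝ v e := by ring
      rw [e3] at this
      exact this
    have h3 : |(inner ℝ v e : ℝ)| = 1 := by
      have := congrArg norm h2
      rw [norm_smul, he, mul_one, hv, Real.norm_eq_abs] at this
      exact this.symm
    rcases (abs_eq (zero_le_one' ℝ)).1 h3 with h4 | h4
    · left; rw [h4, one_smul] at h2; exact h2
    · right; rw [h4, neg_one_smul] at h2; exact h2
  have m1 : deriv γ p = e ∨ deriv γ p = -e := by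
    have := key 0
    rw [sub_zero, add_zero] at this
    exact mult _ (hunit p) this
  have m2 : deriv γ (p + Real.pi) = e ∨ deriv γ (p + Real.pi) = -e := by
    have h1 := key Real.pi
    have h2 : deriv γ (p - Real.pi) = deriv γ (p + Real.pi) := by
      have := hper' (p - Real.pi)
      rw [← this]
      congr 1
      ring
    rw [h2] at h1
    exact mult _ (hunit _) h1
  have g1 : (inner ℝ (γ p) e : ℝ) = h := by
    have h1 := hrel 0
    rw [sub_zero, add_zero] at h1
    have h2 : (2 * ((inner ℝ (γ p) e : ℝ) - h)) • e = 0 := by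
      have := sub_eq_self.1 h1.symm
      exact this
    have h3 := congrArg (fun x => (inner ℝ x e : ℝ)) h2
    simp only [inner_smul_left, he2, inner_zero_left, conj_trivial, mul_one] at h3
    linarith
  have g2 : (inner ℝ (γ (p + Real.pi)) e : ℝ) = h := by
    have h1 := hrel Real.pi
    have h0 : γ (p - Real.pi) = γ (p + Real.pi) := by
      have := hper (p - Real.pi)
      rw [← this]
      congr 1
      ring
    rw [h0] at h1
    have h2 : (2 * ((inner ℝ (γ (p + Real.pi)) e : ℝ) - h)) • e = 0 := sub_eq_self.1 h1.symm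
    have h3 := congrArg (fun x => (inner ℝ x e : ℝ)) h2
    simp only [inner_smul_left, he2, inner_zero_left, conj_trivial, mul_one] at h3
    linarith
  refine ⟨?_, ?_⟩
  · rcases m1 with m1 | m1 <;> rcases m2 with m2 | m2 <;> rw [m1, m2] <;> simp
  · rcases m1 with m1 | m1 <;> rw [m1]
    · rw [inner_sub_left, g1, g2, sub_self]
    · rw [inner_neg_right, inner_sub_left, g1, g2, sub_self, neg_zero]

end Pool.Agent.H421R2.OV
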