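import Pool.Agent.H421R2.OV.Defs

/-! C3: curves with a centre of symmetry (helper844). -/

open MeasureTheory Set Filter Topology intervalIntegral
open scoped ContDiff

namespace Pool.Agent.H421R2.OV

theorem t_C3 : S_C3 := by
  intro n γ hγ hper _ z hz
  have hd : ∀ s, HasDerivAt γ (deriv γ s) s := fun s =>
    ((hγ.differentiable (by norm_num)) s).hasDerivAt
  have hT : ∀ s, deriv γ (s + Real.pi) = -deriv γ s := by
    intro s
    have h1 : HasDerivAt (fun t => γ (t + Real.pi)) (deriv γ (s + Real.pi)) s :=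
      (hd (s + Real.pi)).comp_add_const s Real.pi
    have h2 : HasDerivAt (fun t => z - γ t) (-deriv γ s) s := (hd s).const_sub z
    have h3 : (fun t => γ (t + Real.pi)) = fun t => z - γ t := funext hz
    rw [h3] at h1
    exact h1.unique h2
  set f : ℝ → ℝ := fun s => ‖z - (2 : ℝ) • γ s‖ ^ 2 with hf
  have hfc : Continuous f := by
    have := hγ.continuous
    fun_prop
  have hfp : Function.Periodic f (2 * Real.pi) := by
    intro s
    rw [hf]
    simp only []
    rw [hper s]
  obtain ⟨p, _, hp⟩ := (isCompact_Icc (a := (0 : ℝ)) (b := 2 * Real.pi)).exists_isMaxOn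
    ⟨0, ⟨le_refl _, by positivity⟩⟩ hfc.continuousOn
  have hmax : ∀ s, f s ≤ f p := by
    intro s
    obtain ⟨y, hy, hys⟩ := hfp.exists_mem_Ico₀ (by positivity) s
    rw [hys]
    exact hp ⟨hy.1, hy.2.le⟩
  have hloc : IsLocalMax f p := Filter.Eventually.of_forall hmax
  have h1 : HasDerivAt (fun s => z - (2 : ℝ) • γ s) (-((2 : ℝ) • deriv γ p)) p :=
    ((hd p).const_smul (2 : ℝ)).const_sub z
  have h2 : HasDerivAt f (2 * inner ℝ (z - (2 : ℝ) • γ p) (-((2 : ℝ) • deriv γ p))) p :=
    h1.norm_sq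
  have h3 := hloc.hasDerivAt_eq_zero h2
  refine ⟨p, hT p, ?_⟩
  rw [inner_neg_right, inner_smul_right] at h3
  have h4 : γ (p + Real.pi) - γ p = z - (2 : ℝ) • γ p := by
    rw [hz, two_smul]
    abel
  rw [h4]
  linarith

end Pool.Agent.H421R2.OV
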