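import Pool.Agent.H421R2.OV.Defs

/-! Task D (helper775): the domain inequality. -/

open MeasureTheory Set Filter Topology intervalIntegral
open scoped ContDiff

namespace Pool.Agent.H421R2.OV

theorem t_D (h5 : S_A5) (h8 : S_A8) (hK : S_K1) : S_D := by
  intro s hs z hz1 hz2
  have hpi := Real.pi_pos
  have hsin : 0 < Real.sin s := Real.sin_pos_of_pos_of_lt_pi hs.1 hs.2
  obtain ⟨m, hm0, hm2, hzm, hsm, hcm⟩ : ∃ m : ℝ, 0 < m ∧ m ≤ Real.pi / 2 ∧ z < m ∧
      Real.sin s = Real.sin m ∧ |Real.cos s| = Real.cos m := by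
    rcases le_total s (Real.pi / 2) with h | h
    · refine ⟨s, hs.1, h, hz1, rfl, ?_⟩
      exact abs_of_nonneg (Real.cos_nonneg_of_neg_pi_div_two_le_of_le (by linarith [hs.1]) h)
    · refine ⟨Real.pi - s, by linarith [hs.2], by linarith, hz2, (Real.sin_pi_sub s).symm, ?_⟩
      rw [Real.cos_pi_sub]
      exact abs_of_nonpos (Real.cos_nonpos_of_pi_div_two_le_of_le h (by linarith [hs.2]))
  have hj : 2 / Real.pi * m ≤ Real.sin m := Real.mul_le_sin hm0.le hm2
  have hmm : m / Real.sin s ≤ Real.pi / 2 := by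
    rw [div_le_iff₀ hsin, hsm]
    calc m = Real.pi / 2 * (2 / Real.pi * m) := by field_simp
      _ ≤ Real.pi / 2 * Real.sin m := by gcongr
  have hzz : z / Real.sin s < m / Real.sin s := by gcongr
  have hy2 : z / Real.sin s < Real.pi / 2 := hzz.trans_le hmm
  refine ⟨hy2, ?_⟩
  rcases le_or_gt z 0 with h | h
  · have hy : z / Real.sin s ≤ 0 := div_nonpos_of_nonpos_of_nonneg h hsin.le
    rw [hK.2.2 _ hy]
    simp
  · have hy : 0 < z / Real.sin s := div_pos h hsin
    obtain ⟨hk0, hkA⟩ := hK.1 _ hy hy2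
    refine ⟨hk0.le, ?_⟩
    rcases eq_or_lt_of_le hm2 with hm | hm
    · rw [hcm, hm, Real.cos_pi_div_two, zero_mul]
      exact one_pos
    · have hc0 : 0 < Real.cos m := Real.cos_pos_of_mem_Ioo ⟨by linarith, hm⟩
      have e := h5 m ⟨hm0, hm⟩
      have e2 : Af (Real.cos m) = m / Real.sin s := by
        rw [eq_div_iff hsin.ne', hsm]
        exact e
      have h1 : Real.cos m < 1 / kf (z / Real.sin s) := by
        by_contra hcon
        push Not at hcon
        have h2 := h8.antitoneOn (show 1 / kf (z / Real.sin s) ∈ Ioi (0 : ℝ) from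
          div_pos one_pos hk0) (show Real.cos m ∈ Ioi (0 : ℝ) from hc0) hcon
        rw [hkA, e2] at h2
        linarith
      rw [hcm]
      rwa [lt_div_iff₀ hk0] at h1

end Pool.Agent.H421R2.OV
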