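import Pool.Agent.H421R2.OV.Defs

open MeasureTheory Set Filter Topology intervalIntegral
open scoped ContDiff

namespace Pool.Agent.H421R2.OV

lemma E_mvt (h1 : S_A1) (h4 : S_A4) {g K : ℝ} (hg : 0 < g) (hgK : g < K) :
    (K - g) / (2 * (1 + K)^2) ≤ Af g - Af K ∧ Af g - Af K ≤ K - g := by
  have hcont : ContinuousOn Af (Icc g K) := fun y hy =>
    (h1 y (lt_of_lt_of_le hg hy.1)).continuousAt.continuousWithinAt
  obtain ⟨ξ, hξ, he⟩ := exists_hasDerivAt_eq_slope Af Ap hgK hcont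
    (fun y hy => h1 y (hg.trans hy.1))
  have hξ0 : 0 < ξ := hg.trans hξ.1
  obtain ⟨ha, hb⟩ := h4 ξ hξ0
  have hd : 0 < K - g := sub_pos.mpr hgK
  have he' : Af g - Af K = -Ap ξ * (K - g) := by
    rw [he, neg_mul, div_mul_cancel₀ _ hd.ne']
    ring
  rw [he']
  constructor
  · have h2 : 1 / (2 * (1 + K)^2) ≤ -Ap ξ := by
      have h3 : 1 / (2 * (1 + K)^2) ≤ 1 / (2 * (1+ξ)^2) := by
        apply one_div_le_one_div_of_le (by positivity)
        have : (1 + ξ)^2 ≤ (1 + K)^2 := pow_le_pow_left₀ (by linarith) (by linarith [hξ.2]) 2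
        linarith
      have h4' : -1 / (2 * (1+ξ)^2) = -(1 / (2 * (1+ξ)^2)) := by ring
      rw [h4'] at hb
      linarith
    calc (K - g) / (2 * (1 + K)^2) = 1 / (2 * (1 + K)^2) * (K - g) := by ring
      _ ≤ -Ap ξ * (K - g) := mul_le_mul_of_nonneg_right h2 hd.le
  · calc -Ap ξ * (K - g) ≤ 1 * (K - g) := mul_le_mul_of_nonneg_right (by linarith) hd.le
      _ = K - g := one_mul _

lemma E_alg {g σ K c d M s : ℝ} (hs : 0 < s) (hM : 0 ≤ M) (hσ : s / 2 ≤ σ) (hg : 1 / 2 ≤ g)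
    (hgσ : g ^ 2 + σ ^ 2 = 1) (hgK : g < K) (hc : c ≤ 1) (hc1 : 1 - c ≤ M * s)
    (hc2 : (1 - c) ^ 2 ≤ 2 * M * d) (hd : d ≤ (M + s) * s ^ 2)
    (hκ1 : d ≤ (K - g) * σ) (hκ2 : (K - g) * σ ≤ 18 * d) :
    g / σ - ((1+c)^2 * (1 / K) / (1 + g * (1 / K)) - (1-c)^2 * (1 / K) / (1 - g * (1 / K)))
      / (2 * σ) ≤ 41 * M + 36 * s := by
  have hσ0 : 0 < σ := lt_of_lt_of_le (by linarith) hσ
  have hg0 : 0 < g := by linarith
  have hK : 0 < K := hg0.trans hgK
  obtain ⟨κ, hκ⟩ : ∃ κ, κ = K - g := ⟨_, rfl⟩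
  have hκ0 : 0 < κ := by rw [hκ]; linarith
  rw [← hκ] at hκ1 hκ2
  have hKg : K = g + κ := by rw [hκ]; ring
  have e1 : (1+c)^2 * (1 / K) / (1 + g * (1 / K)) = (1+c)^2 / (2 * g + κ) := by
    have h1 : 1 + g * (1 / K) = (2 * g + κ) / K := by
      rw [hKg]; field_simp; ring
    rw [h1]; field_simp
  have e2 : (1-c)^2 * (1 / K) / (1 - g * (1 / K)) = (1-c)^2 / κ := by
    have h1 : 1 - g * (1 / K) = κ / K := by
      rw [hKg]; field_simp; ring
    rw [h1]; field_simp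
  have e3 : g / σ - ((1+c)^2 * (1 / K) / (1 + g * (1 / K)) - (1-c)^2 * (1 / K) / (1 - g * (1 / K)))
      / (2 * σ) = (2 * g - (1+c)^2 / (2 * g + κ)) / (2 * σ) + (1-c)^2 / κ / (2 * σ) := by
    rw [e1, e2]
    field_simp
    ring
  rw [e3]
  -- second part
  have hB : (1-c)^2 / κ / (2 * σ) ≤ M := by
    rw [div_le_iff₀ (by positivity), div_le_iff₀ hκ0]
    calc (1 - c)^2 ≤ 2 * M * d := hc2
      _ ≤ 2 * M * (κ * σ) := mul_le_mul_of_nonneg_left hκ1 (by positivity)
      _ = M * (2 * σ) * κ := by ring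
  -- first part
  have hA1 : 2 * g - (1+c)^2 / (2 * g + κ) ≤ κ + 4 * (1 - c) := by
    have h1 : 2 * g - κ - 4 * (1 - c) ≤ (1+c)^2 / (2 * g + κ) := by
      rw [le_div_iff₀ (by positivity)]
      have hu : 0 ≤ 1 - c := by linarith
      have h2 : 0 ≤ (1 - c) * (2 * g + κ - 1) := mul_nonneg hu (by linarith)
      nlinarith [sq_nonneg κ, sq_nonneg σ, sq_nonneg (1 - c)]
    linarith
  have hκb : κ ≤ 72 * (M + s) * σ := by
    have h1 : s ^ 2 ≤ 4 * σ ^ 2 := by nlinarith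
    have h2 : κ * σ ≤ 72 * (M + s) * σ * σ := by
      calc κ * σ ≤ 18 * d := hκ2
        _ ≤ 18 * ((M + s) * s ^ 2) := by linarith
        _ ≤ 18 * ((M + s) * (4 * σ ^ 2)) := by
            have : (M + s) * s ^ 2 ≤ (M + s) * (4 * σ ^ 2) :=
              mul_le_mul_of_nonneg_left h1 (by positivity)
            linarith
        _ = 72 * (M + s) * σ * σ := by ring
    exact le_of_mul_le_mul_right h2 hσ0
  have hcb : 1 - c ≤ 2 * M * σ := by
    calc 1 - c ≤ M * s := hc1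
      _ ≤ M * (2 * σ) := mul_le_mul_of_nonneg_left (by linarith) hM
      _ = 2 * M * σ := by ring
  have hA : (2 * g - (1+c)^2 / (2 * g + κ)) / (2 * σ) ≤ 36 * (M + s) + 4 * M := by
    rw [div_le_iff₀ (by positivity)]
    calc 2 * g - (1+c)^2 / (2 * g + κ) ≤ κ + 4 * (1 - c) := hA1
      _ ≤ 72 * (M + s) * σ + 4 * (2 * M * σ) := by linarith
      _ = (36 * (M + s) + 4 * M) * (2 * σ) := by ring
  linarith

theorem t_E (h1 : S_A1) (h4 : S_A4) (h5 : S_A5) (h6 : S_A6) (h8 : S_A8) (h9 : S_A9)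
    (hk1 : S_K1) : S_E := by
  intro c c' x hc hc' hc2 hx hx0 hc0 ε hε
  have hcle : ∀ s, c s ≤ 1 := fun s => by nlinarith [hc2 s]
  have hmax : IsLocalMax c 0 := Filter.Eventually.of_forall (fun s => by rw [hc0]; exact hcle s)
  have hc'0 : c' 0 = 0 := hmax.hasDerivAt_eq_zero (hc 0)
  obtain ⟨M, hMe⟩ : ∃ M, M = ε / 82 := ⟨_, rfl⟩
  have hM : 0 < M := by rw [hMe]; positivity
  obtain ⟨δ, hδ, hδM⟩ := Metric.continuousAt_iff.mp (hc'.continuousAt (x := 0)) M hM
  refine ⟨min (min δ 1) (min (ε / 72) (1 / (36 * (M + 1)))), by positivity, ?_⟩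
  intro s hs
  have hs0 : 0 < s := hs.1
  have hsδ : s < δ := hs.2.trans_le ((min_le_left _ _).trans (min_le_left _ _))
  have hs1 : s < 1 := hs.2.trans_le ((min_le_left _ _).trans (min_le_right _ _))
  have hsε : s < ε / 72 := hs.2.trans_le ((min_le_right _ _).trans (min_le_left _ _))
  have hsM : s < 1 / (36 * (M + 1)) := hs.2.trans_le ((min_le_right _ _).trans (min_le_right _ _))
  have hb : ∀ r, 0 ≤ r → r ≤ s → -M ≤ c' r := by
    intro r hr0 hrs
    have h : dist r 0 < δ := by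
      rw [Real.dist_eq, sub_zero, abs_of_nonneg hr0]; linarith
    have h' := hδM h
    rw [hc'0, Real.dist_eq, sub_zero] at h'
    exact (abs_lt.mp h').1.le
  -- `1 - c ≤ M r`
  have hcr : ∀ r, 0 < r → r ≤ s → 1 - c r ≤ M * r := by
    intro r hr0 hrs
    obtain ⟨ξ, hξ, he⟩ := exists_hasDerivAt_eq_slope c c' hr0
      (fun y _ => (hc y).continuousAt.continuousWithinAt) (fun y _ => hc y)
    have h := hb ξ hξ.1.le (hξ.2.le.trans hrs)
    rw [hc0, sub_zero, eq_div_iff hr0.ne'] at he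
    nlinarith
  -- bounds for `s - x s`
  have hD : 0 ≤ s - x s ∧ s - x s ≤ M * s ^ 2 := by
    obtain ⟨ξ, hξ, he⟩ := exists_hasDerivAt_eq_slope x c hs0
      (fun y _ => (hx y).continuousAt.continuousWithinAt) (fun y _ => hx y)
    rw [hx0, sub_zero, sub_zero, eq_div_iff hs0.ne'] at he
    have h := hcr ξ hξ.1 hξ.2.le
    have h2 := hcle ξ
    have h3 : M * ξ ≤ M * s := mul_le_mul_of_nonneg_left hξ.2.le hM.le
    constructor
    · rw [← he]; nlinarith
    · rw [← he]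
      have h4 : (1 - c ξ) * s ≤ M * s * s := mul_le_mul_of_nonneg_right (h.trans h3) hs0.le
      nlinarith
  -- the quadratic bound
  have hQ : (1 - c s) ^ 2 ≤ 2 * M * (s - x s) := by
    have hF : ∀ r, HasDerivAt (fun r => 2 * M * (r - x r) - (1 - c r) ^ 2)
        (2 * (1 - c r) * (M + c' r)) r := by
      intro r
      have d1 := (((hasDerivAt_id r).sub (hx r)).const_mul (2 * M)).sub
        (((hc r).const_sub 1).pow 2)
      refine d1.congr_deriv ?_
      push_cast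
      ring
    obtain ⟨ξ, hξ, he⟩ := exists_hasDerivAt_eq_slope
      (fun r => 2 * M * (r - x r) - (1 - c r) ^ 2) (fun r => 2 * (1 - c r) * (M + c' r)) hs0
      (fun y _ => (hF y).continuousAt.continuousWithinAt) (fun y _ => hF y)
    simp only [hx0, hc0, sub_zero, sub_self] at he
    rw [eq_div_iff hs0.ne'] at he
    have h := hb ξ hξ.1.le hξ.2.le
    have h2 := hcle ξ
    have h3 : 0 ≤ 2 * (1 - c ξ) * (M + c' ξ) * s :=
      mul_nonneg (mul_nonneg (by linarith) (by linarith)) hs0.le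
    nlinarith
  obtain ⟨d, hd⟩ : ∃ d, d = s - x s + s ^ 3 := ⟨_, rfl⟩
  have hs3 : 0 < s ^ 3 := by positivity
  have hd0 : 0 < d := by rw [hd]; linarith [hD.1]
  have hdb : d ≤ (M + s) * s ^ 2 := by rw [hd]; nlinarith [hD.2]
  have hc2' : (1 - c s) ^ 2 ≤ 2 * M * d := by
    rw [hd]; nlinarith
  -- trigonometry
  have hsin : s / 2 ≤ Real.sin s := by
    have h := Real.sin_gt_sub_cube hs0
    have h3 : s ^ 3 ≤ s := pow_le_of_le_one hs0.le hs1.le (by norm_num)
    linarith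
  have hsin0 : 0 < Real.sin s := by linarith
  have hsinle : Real.sin s ≤ s := Real.sin_le hs0.le
  have hcos : 1 / 2 ≤ Real.cos s := by
    have h := Real.one_sub_sq_div_two_le_cos (x := s)
    nlinarith
  have hcos1 : Real.cos s ≤ 1 := Real.cos_le_one s
  have hcos0 : 0 < Real.cos s := by linarith
  have hgσ : Real.cos s ^ 2 + Real.sin s ^ 2 = 1 := by
    rw [add_comm]; exact Real.sin_sq_add_cos_sq s
  have hpi : s < Real.pi / 2 := by linarith [Real.pi_gt_three]
  have hA5 := h5 s ⟨hs0, hpi⟩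
  have hAg : Af (Real.cos s) = s / Real.sin s := by
    rw [eq_div_iff hsin0.ne']; exact hA5
  -- `d / σ < 1/18`
  have hdσ : d / Real.sin s < 1 / 18 := by
    rw [div_lt_iff₀ hsin0]
    have h : s * (36 * (M + 1)) < 1 := by
      rw [lt_div_iff₀ (by positivity)] at hsM
      exact hsM
    have h2 : (M + s) * s ^ 2 ≤ (M + 1) * s * s := by
      have : (M + s) * (s * s) ≤ (M + 1) * (s * s) :=
        mul_le_mul_of_nonneg_right (by linarith) (by positivity)
      nlinarith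
    have h3 : (M + 1) * s * s < 1 / 36 * s := by
      apply mul_lt_mul_of_pos_right _ hs0
      linarith
    linarith
  -- the value `y`
  obtain ⟨y, hy⟩ : ∃ y, y = (x s - s ^ 3) / Real.sin s := ⟨_, rfl⟩
  have hyA : y = Af (Real.cos s) - d / Real.sin s := by
    rw [hy, hAg, hd]
    field_simp
    ring
  have hdσ0 : 0 < d / Real.sin s := div_pos hd0 hsin0
  have hy0 : 0 < y := by
    rw [hyA, hAg]
    have : 1 ≤ s / Real.sin s := by rw [le_div_iff₀ hsin0]; linarith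
    linarith
  have hy1 : y < Real.pi / 2 := by
    have := (h9 _ hcos0).2
    rw [hyA]; linarith
  obtain ⟨K, hK0, hKy⟩ := h6 y hy0 hy1
  have hkf : kf y = 1 / K := by rw [← hKy]; exact hk1.2.1 K hK0
  have hgK : Real.cos s < K := by
    by_contra hcon
    push Not at hcon
    rcases hcon.lt_or_eq with h | h
    · have := h8 (mem_Ioi.mpr hK0) (mem_Ioi.mpr hcos0) h
      rw [hKy, hyA] at this
      linarith
    · rw [h] at hKy
      rw [hyA] at hKy
      linarith
  have hK2 : K < 2 := by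
    by_contra hcon
    push Not at hcon
    have h2 : Af K ≤ Af 2 := by
      rcases hcon.lt_or_eq with h | h
      · exact (h8 (mem_Ioi.mpr (by norm_num)) (mem_Ioi.mpr hK0) h).le
      · rw [h]
    have h3 := (E_mvt h1 h4 hcos0 (by linarith : Real.cos s < 2)).1
    have h5' : (2 - Real.cos s) / (2 * (1 + 2) ^ 2) = (2 - Real.cos s) / 18 := by norm_num
    rw [h5'] at h3
    rw [hKy, hyA] at h2
    linarith
  obtain ⟨hm1, hm2⟩ := E_mvt h1 h4 hcos0 hgK
  have hAfd : Af (Real.cos s) - Af K = d / Real.sin s := by rw [hKy, hyA]; ring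
  rw [hAfd] at hm1 hm2
  have hκ1 : d ≤ (K - Real.cos s) * Real.sin s := by
    rwa [div_le_iff₀ hsin0] at hm2
  have hκ2 : (K - Real.cos s) * Real.sin s ≤ 18 * d := by
    have h2 : (K - Real.cos s) / 18 ≤ (K - Real.cos s) / (2 * (1 + K) ^ 2) := by
      apply div_le_div_of_nonneg_left (by linarith) (by positivity)
      nlinarith
    have h3 := h2.trans hm1
    rw [le_div_iff₀ hsin0] at h3
    linarith
  have hfin := E_alg hs0 hM.le hsin hcos hgσ hgK (hcle s) (hcr s hs0 le_rfl) hc2' hdb hκ1 hκ2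
  rw [← hy, hkf]
  unfold Uf
  refine hfin.trans ?_
  rw [hMe]
  linarith

end Pool.Agent.H421R2.OV
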