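import Pool.Agent.H421R2.OV.Defs

/-! OV F: the integrated inequality (helper926). -/

open MeasureTheory Set Filter Topology intervalIntegral
open scoped ContDiff

namespace Pool.Agent.H421R2.OV

theorem t_F (hF0 : S_F0) : S_F := by
  intro c c' q x φ φ' hc hc2 hq hqc hcq hx hφ hφ' s₁ S hs₁ hs hS hdom
  have hU : ∀ s ∈ Icc s₁ S, ∃ u' : ℝ,
      HasDerivAt (fun r => Uf r (kf (x r / Real.sin r)) (c r)) u' s ∧
      u' + (Uf s (kf (x s / Real.sin s)) (c s))^2 + 1 ≤ q s := fun s hs' =>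
    hF0 c c' q x hc hc2 hq hcq hx s ⟨by linarith [hs'.1], by linarith [hs'.2]⟩
      (hdom s hs').1 (hdom s hs').2
  have hφc : Continuous φ := continuous_iff_continuousAt.2 fun s => (hφ s).continuousAt
  have hf : Continuous (fun s => φ' s ^ 2 + q s * φ s ^ 2 - φ s ^ 2) := by fun_prop
  have hG : ∀ s ∈ Icc s₁ S, ∃ g' : ℝ, HasDerivAt (fun s => (∫ t in s₁..s,
      (φ' t ^ 2 + q t * φ t ^ 2 - φ t ^ 2)) - φ s ^ 2 * Uf s (kf (x s / Real.sin s)) (c s)) g' s ∧
      0 ≤ g' := by
    intro s hs'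
    obtain ⟨u', hu', hle⟩ := hU s hs'
    have h1 : HasDerivAt (fun s => ∫ t in s₁..s, (φ' t ^ 2 + q t * φ t ^ 2 - φ t ^ 2))
        (φ' s ^ 2 + q s * φ s ^ 2 - φ s ^ 2) s :=
      intervalIntegral.integral_hasDerivAt_right (hf.intervalIntegrable _ _)
        (hf.stronglyMeasurableAtFilter _ _) hf.continuousAt
    have h2 : HasDerivAt (fun s => φ s ^ 2) (2 * φ s * φ' s) s := by
      have h := (hφ s).mul (hφ s)
      have e : (fun s => φ s ^ 2) = φ * φ := by
        funext t
        simp [sq]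
      have e2 : 2 * φ s * φ' s = φ' s * φ s + φ s * φ' s := by ring
      rw [e, e2]
      exact h
    refine ⟨_, h1.sub (h2.mul hu'), ?_⟩
    set W := Uf s (kf (x s / Real.sin s)) (c s) with hW
    have h3 : φ s ^ 2 * u' ≤ φ s ^ 2 * (q s - 1 - W ^ 2) :=
      mul_le_mul_of_nonneg_left (by linarith) (sq_nonneg _)
    nlinarith [sq_nonneg (φ' s - φ s * W)]
  have hmono : MonotoneOn (fun s => (∫ t in s₁..s,
      (φ' t ^ 2 + q t * φ t ^ 2 - φ t ^ 2)) - φ s ^ 2 * Uf s (kf (x s / Real.sin s)) (c s))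
      (Icc s₁ S) := by
    refine monotoneOn_of_deriv_nonneg (convex_Icc _ _) ?_ ?_ ?_
    · intro s hs'
      obtain ⟨g', hg', -⟩ := hG s hs'
      exact hg'.continuousAt.continuousWithinAt
    · intro s hs'
      obtain ⟨g', hg', -⟩ := hG s (interior_subset hs')
      exact hg'.differentiableAt.differentiableWithinAt
    · intro s hs'
      obtain ⟨g', hg', h0⟩ := hG s (interior_subset hs')
      rw [hg'.deriv]
      exact h0
  have h := hmono (left_mem_Icc.2 hs) (right_mem_Icc.2 hs) hs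
  simp only [intervalIntegral.integral_same, zero_sub] at h
  linarith

end Pool.Agent.H421R2.OV
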