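import Pool.Agent.H421R2.OV.Defs

/-!
# The ovals problem: the forward theorem
-/

open MeasureTheory Set Filter Topology intervalIntegral
open scoped ContDiff

namespace Pool.Agent.H421R2.OV

theorem FT_xle (c x : ℝ → ℝ) (hc : ∀ s, c s ^ 2 ≤ 1) (hx : ∀ s, HasDerivAt x (c s) s)
    (hx0 : x 0 = 0) (s : ℝ) (hs : 0 ≤ s) : x s ≤ s := by
  have hd : ∀ s, HasDerivAt (fun s => s - x s) (1 - c s) s := fun s =>
    (hasDerivAt_id s).sub (hx s)
  have hmono : Monotone (fun s => s - x s) := by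
    apply monotone_of_deriv_nonneg
    · exact fun s => (hd s).differentiableAt
    · intro s
      rw [(hd s).deriv]
      have h1 := hc s
      nlinarith [sq_nonneg (c s - 1)]
  have h1 := hmono hs
  simp only [hx0] at h1
  linarith

theorem FT_kf (hD : S_D) (h2 : S_K2) (h3 : S_K3) (S z : ℝ) (hS : S ∈ Ioo (0 : ℝ) Real.pi)
    (h : z < S) (h' : z < Real.pi - S) : ContinuousAt kf (z / Real.sin S) := by
  obtain ⟨h5, -, -⟩ := hD S hS z h h'
  rcases le_or_gt (z / Real.sin S) 0 with h6 | h6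
  · exact (h3 _ h6).continuousAt
  · exact (h2 _ h6 h5).continuousAt

theorem FT_Uf (hD : S_D) (h2 : S_K2) (h3 : S_K3) (S z c : ℝ) (hS : S ∈ Ioo (0 : ℝ) Real.pi)
    (h : z < S) (h' : z < Real.pi - S) :
    ContinuousAt (fun s : ℝ => Uf S (kf ((z - s ^ 3) / Real.sin S)) c) 0 := by
  obtain ⟨-, h6, h7⟩ := hD S hS z h h'
  have hk : ContinuousAt (fun s : ℝ => kf ((z - s ^ 3) / Real.sin S)) 0 := by
    have h8 : ContinuousAt kf ((z - (0 : ℝ) ^ 3) / Real.sin S) := by
      have e : z - (0 : ℝ) ^ 3 = z := by ring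
      rw [e]
      exact FT_kf hD h2 h3 S z hS h h'
    have h9 : ContinuousAt (fun s : ℝ => (z - s ^ 3) / Real.sin S) 0 := by fun_prop
    exact ContinuousAt.comp (f := fun s : ℝ => (z - s ^ 3) / Real.sin S) (g := kf) h8 h9
  have e0 : (z - (0 : ℝ) ^ 3) / Real.sin S = z / Real.sin S := by
    congr 1
    ring
  have hab := abs_le.1 (le_refl |Real.cos S|)
  have h10 : 1 + Real.cos S * kf ((z - (0 : ℝ) ^ 3) / Real.sin S) ≠ 0 := by
    rw [e0]
    have h11 : -|Real.cos S| * kf (z / Real.sin S) ≤ Real.cos S * kf (z / Real.sin S) :=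
      mul_le_mul_of_nonneg_right hab.1 h6
    intro h12
    linarith
  have h11 : 1 - Real.cos S * kf ((z - (0 : ℝ) ^ 3) / Real.sin S) ≠ 0 := by
    rw [e0]
    have h11 : Real.cos S * kf (z / Real.sin S) ≤ |Real.cos S| * kf (z / Real.sin S) :=
      mul_le_mul_of_nonneg_right hab.2 h6
    intro h12
    linarith
  unfold Uf
  refine ContinuousAt.sub continuousAt_const (ContinuousAt.div_const (ContinuousAt.sub ?_ ?_) _)
  · exact (continuousAt_const.mul hk).div (continuousAt_const.add (continuousAt_const.mul hk)) h10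
  · exact (continuousAt_const.mul hk).div (continuousAt_const.sub (continuousAt_const.mul hk)) h11

/-- the forward theorem -/
theorem t_FT (hF : S_F) (hE : S_E) (hD : S_D) (h2 : S_K2) (h3 : S_K3) : S_FT := by
  intro c c' q x φ φ' hc hc' hc1 hq hqc hcq hx hφ hφ' hx0 hc0 S hS0 hSpi hxS hxs
  have hxle := FT_xle c x hc1 hx hx0
  set G : ℝ → ℝ := fun s => φ' s ^ 2 + q s * φ s ^ 2 - φ s ^ 2 with hG
  have hφc : Continuous φ := continuous_iff_continuousAt.2 fun s => (hφ s).continuousAt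
  have hGc : Continuous G := by
    rw [hG]
    fun_prop
  have hSI : S ∈ Ioo (0 : ℝ) Real.pi := ⟨hS0, hSpi⟩
  have hxS' : x S < Real.pi - S := hxs S ⟨hS0, le_refl S⟩
  have key : ∀ ε : ℝ, 0 < ε → φ S ^ 2 * Uf S (kf (x S / Real.sin S)) (c S) ≤
      (∫ s in (0 : ℝ)..S, G s) + φ 0 ^ 2 * ε := by
    intro ε hε
    obtain ⟨s0, hs0, hs0'⟩ := hE c c' x hc hc' hc1 hx hx0 hc0 ε hε
    -- the inequality for small positive `t`
    have hineq : ∀ t ∈ Ioo (0 : ℝ) (min s0 S),
        φ S ^ 2 * Uf S (kf ((x S - t ^ 3) / Real.sin S)) (c S) ≤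
          (∫ s in t..S, G s) + φ t ^ 2 * ε := by
      intro t ht
      have ht0 : 0 < t := ht.1
      have hts0 : t < s0 := ht.2.trans_le (min_le_left _ _)
      have htS : t < S := ht.2.trans_le (min_le_right _ _)
      have ht3 : 0 < t ^ 3 := by positivity
      have h5 := hF c c' q (fun s => x s - t ^ 3) φ φ' hc hc1 hq hqc hcq
        (fun s => (hx s).sub_const _) hφ hφ' t S ht0 htS.le hSpi (fun s hs => by
          have h6 : 0 < s := ht0.trans_le hs.1
          have h7 := hxle s h6.le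
          have h8 := hxs s ⟨h6, hs.2⟩
          exact ⟨by linarith, by linarith⟩)
      have h6 := hs0' t ⟨ht0, hts0⟩
      have h7 : φ t ^ 2 * Uf t (kf ((x t - t ^ 3) / Real.sin t)) (c t) ≤ φ t ^ 2 * ε :=
        mul_le_mul_of_nonneg_left h6 (sq_nonneg _)
      linarith
    -- limits
    have hL : Tendsto (fun t : ℝ => φ S ^ 2 * Uf S (kf ((x S - t ^ 3) / Real.sin S)) (c S))
        (𝓝[>] 0) (𝓝 (φ S ^ 2 * Uf S (kf (x S / Real.sin S)) (c S))) := by
      have h5 := (FT_Uf hD h2 h3 S (x S) (c S) hSI hxS hxS').tendsto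
      have e : (x S - (0 : ℝ) ^ 3) / Real.sin S = x S / Real.sin S := by
        congr 1
        ring
      rw [e] at h5
      exact (h5.const_mul _).mono_left nhdsWithin_le_nhds
    have hR : Tendsto (fun t : ℝ => (∫ s in t..S, G s) + φ t ^ 2 * ε) (𝓝[>] 0)
        (𝓝 ((∫ s in (0 : ℝ)..S, G s) + φ 0 ^ 2 * ε)) := by
      have h5 : Continuous (fun t : ℝ => (∫ s in t..S, G s) + φ t ^ 2 * ε) := by
        have h6 : Continuous (fun t : ℝ => ∫ s in S..t, G s) :=
          intervalIntegral.continuous_primitive (fun a b => hGc.intervalIntegrable a b) S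
        have h7 : (fun t : ℝ => ∫ s in t..S, G s) = fun t : ℝ => -∫ s in S..t, G s := by
          funext t
          exact intervalIntegral.integral_symm _ _
        have h8 : Continuous (fun t : ℝ => ∫ s in t..S, G s) := by
          rw [h7]
          exact h6.neg
        exact h8.add ((hφc.pow 2).mul continuous_const)
      exact h5.continuousAt.tendsto.mono_left nhdsWithin_le_nhds
    refine le_of_tendsto_of_tendsto hL hR ?_
    have hmem : Ioo (0 : ℝ) (min s0 S) ∈ 𝓝[>] (0 : ℝ) := Ioo_mem_nhdsGT (lt_min hs0 hS0)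
    filter_upwards [hmem] with t ht
    exact hineq t ht
  apply le_of_forall_pos_le_add
  intro δ hδ
  have h5 : 0 < φ 0 ^ 2 + 1 := by positivity
  refine (key (δ / (φ 0 ^ 2 + 1)) (div_pos hδ h5)).trans ?_
  have h6 : φ 0 ^ 2 * (δ / (φ 0 ^ 2 + 1)) ≤ δ := by
    rw [← mul_div_assoc, div_le_iff₀ h5]
    nlinarith [sq_nonneg (φ 0)]
  linarith

end Pool.Agent.H421R2.OV
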