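import Pool.Agent.H421R2.OV.Defs

/-!
# K1: elementary properties of `kf`
-/

open MeasureTheory Set Filter Topology intervalIntegral
open scoped ContDiff

namespace Pool.Agent.H421R2.OV

theorem K1_pos {y : ℝ} (h : 0 < y ∧ ∃ K : ℝ, 0 < K ∧ Af K = y) :
    ∃ K : ℝ, 0 < K ∧ Af K = y ∧ kf y = 1 / K := by
  refine ⟨h.2.choose, h.2.choose_spec.1, h.2.choose_spec.2, ?_⟩
  unfold kf
  rw [dif_pos h]

theorem t_K1 (h6 : S_A6) (h8 : S_A8) (h9 : S_A9) : S_K1 := by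
  refine ⟨?_, ?_, ?_⟩
  · intro y hy0 hy1
    obtain ⟨K, hK0, hKy, hk⟩ := K1_pos ⟨hy0, h6 y hy0 hy1⟩
    rw [hk]
    refine ⟨by positivity, ?_⟩
    rw [one_div_one_div]
    exact hKy
  · intro K hK
    obtain ⟨K', hK0, hKy, hk⟩ := K1_pos ⟨(h9 K hK).1, K, hK, rfl⟩
    rw [hk, h8.injOn hK0 hK hKy]
  · intro y hy
    unfold kf
    rw [dif_neg]
    rintro ⟨h, _⟩
    linarith

end Pool.Agent.H421R2.OV
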