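import Pool.Agent.H421R2.OV.Defs

/-! Task K2 (helper514): derivative of `kf` on `(0, π/2)`. -/

open MeasureTheory Set Filter Topology intervalIntegral

namespace Pool.Agent.H421R2.OV

theorem t_K2 (h1 : S_A1) (h2 : S_A2) (h4 : S_A4) (hK : S_K1) : S_K2 := by
  intro y hy0 hy1
  obtain ⟨k1, k2, k3⟩ := hK
  obtain ⟨hk, hA⟩ := k1 y hy0 hy1
  have hKpos : 0 < 1 / kf y := one_div_pos.2 hk
  have hs : HasStrictDerivAt Af (Ap (1 / kf y)) (1 / kf y) := by
    refine hasStrictDerivAt_of_hasDerivAt_of_continuousAt ?_ ?_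
    · filter_upwards [Ioi_mem_nhds hKpos] with z hz using h1 z hz
    · exact h2.continuousAt (Ioi_mem_nhds hKpos)
  have hne : Ap (1 / kf y) ≠ 0 := by
    have h3 : -1 / (2 * (1 + 1 / kf y)^2) < 0 := by
      apply div_neg_of_neg_of_pos (by norm_num)
      positivity
    exact ((h4 _ hKpos).2.trans_lt h3).ne
  have hg : HasStrictDerivAt (fun z => 1 / kf z) (Ap (1 / kf y))⁻¹ (Af (1 / kf y)) := by
    refine hs.to_local_left_inverse hne ?_
    filter_upwards [Ioi_mem_nhds hKpos] with z hz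
    rw [k2 z hz, one_div_one_div]
  rw [hA] at hg
  have hd := hg.hasDerivAt.inv hKpos.ne'
  have e : (fun z => 1 / kf z)⁻¹ = kf := by
    funext z
    simp
  rw [e] at hd
  have hv : -(kf y)^2 / Ap (1 / kf y) = -(Ap (1 / kf y))⁻¹ / (1 / kf y) ^ 2 := by
    generalize Ap (1 / kf y) = A
    rw [one_div, inv_pow, div_inv_eq_mul, div_eq_mul_inv]
    ring
  rw [hv]
  exact hd

end Pool.Agent.H421R2.OV
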