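import Pool.Agent.H421R2.OV.Defs

open MeasureTheory Set Filter Topology intervalIntegral

set_option autoImplicit false

namespace Pool.Agent.H421R2.OV

theorem t_K3 (h7 : S_A7) (h8 : S_A8) (h9 : S_A9) (hK : S_K1) : S_K3 := by
  intro y hy
  obtain ⟨hK1, _, hK3⟩ := hK
  rcases lt_or_eq_of_le hy with hy | hy
  · have h1 : kf =ᶠ[𝓝 y] fun _ => (0 : ℝ) := by
      filter_upwards [Iio_mem_nhds hy] with z hz
      exact hK3 z (le_of_lt hz)
    exact (hasDerivAt_const y (0 : ℝ)).congr_of_eventuallyEq h1
  · subst hy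
    rw [hasDerivAt_iff_isLittleO]
    rw [hK3 0 le_rfl]
    simp only [sub_zero, smul_zero]
    rw [Asymptotics.isLittleO_iff]
    intro ε hε
    have h1 := (tendsto_atTop.1 h7) (1 / ε)
    rw [eventually_atTop] at h1
    obtain ⟨M0, hM0⟩ := h1
    set M := max M0 1 with hM
    have hM1 : 0 < M := lt_of_lt_of_le one_pos (le_max_right _ _)
    have hM2 : M0 ≤ M := le_max_left _ _
    obtain ⟨h2, h3⟩ := h9 M hM1
    filter_upwards [Iio_mem_nhds h2] with z hz
    have hz' : z < Af M := hz
    rcases le_or_gt z 0 with hz0 | hz0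
    · rw [hK3 z hz0, norm_zero]
      positivity
    · obtain ⟨h4, h5⟩ := hK1 z hz0 (hz'.trans h3)
      set K := 1 / kf z with hKd
      have hK0 : 0 < K := by rw [hKd]; positivity
      have hKM : M < K := by
        by_contra hcon
        push Not at hcon
        have h6 : Af M ≤ Af K := h8.antitoneOn hK0 hM1 hcon
        rw [h5] at h6
        linarith
      have h6 := hM0 K (hM2.trans hKM.le)
      rw [h5] at h6
      have h10 : kf z = 1 / K := by
        rw [hKd, one_div_one_div]
      rw [Real.norm_of_nonneg h4.le, Real.norm_of_nonneg hz0.le, h10, div_le_iff₀ hK0]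
      rw [div_le_iff₀ hε] at h6
      linarith

end Pool.Agent.H421R2.OV
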