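import Pool.Agent.H421R2.OV.Defs

set_option autoImplicit false

open MeasureTheory Set Filter Topology intervalIntegral
open scoped ContDiff

namespace Pool.Agent.H421R2.OV

theorem t_QZ (hFT : S_FT) (hK1 : S_K1) : S_QZ := by
  intro c c' q x φ φ' hc hc'c hc1 hq hqc hcq hx hφ hφc hx0 hc0
  have habs : ∀ s, -1 ≤ c s ∧ c s ≤ 1 := fun s => by
    have := hc1 s
    constructor <;> nlinarith
  have m1 : Monotone fun s => s - x s := by
    apply monotone_of_deriv_nonneg
    · exact fun s => ((hasDerivAt_id s).sub (hx s)).differentiableAt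
    · intro s
      have h1 : HasDerivAt (fun s => s - x s) (1 - c s) s := (hasDerivAt_id s).sub (hx s)
      rw [h1.deriv]
      linarith [(habs s).2]
  have m2 : Monotone fun s => s + x s := by
    apply monotone_of_deriv_nonneg
    · exact fun s => ((hasDerivAt_id s).add (hx s)).differentiableAt
    · intro s
      have h1 : HasDerivAt (fun s => s + x s) (1 + c s) s := (hasDerivAt_id s).add (hx s)
      rw [h1.deriv]
      linarith [(habs s).1]
  have hle : ∀ s, 0 ≤ s → x s ≤ s := by
    intro s hs
    have := m1 hs
    simp only [hx0, sub_zero] at this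
    linarith
  have hpi := Real.pi_pos
  refine ⟨?_, ?_⟩
  · intro hlt
    have h := hFT c c' q x φ φ' hc hc'c hc1 hq hqc hcq hx hφ hφc hx0 hc0 (Real.pi/2)
      (by linarith) (by linarith) hlt (by
        intro s hs
        rcases lt_or_eq_of_le hs.2 with h1 | h1
        · have := hle s hs.1.le
          linarith
        · rw [h1]
          linarith)
    have e : φ (Real.pi/2) ^ 2 * Uf (Real.pi/2) (kf (x (Real.pi/2) / Real.sin (Real.pi/2)))
        (c (Real.pi/2)) = -(2 * c (Real.pi/2) * kf (x (Real.pi/2)) * φ (Real.pi/2) ^ 2) := by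
      unfold Uf
      rw [Real.sin_pi_div_two, Real.cos_pi_div_two]
      simp only [div_one, zero_mul, add_zero, sub_zero, zero_sub, mul_one]
      ring
    rw [e] at h
    exact h
  · intro S hS hSp hxS
    have h := hFT c c' q x φ φ' hc hc'c hc1 hq hqc hcq hx hφ hφc hx0 hc0 S
      hS hSp (by linarith) (by
        intro s hs
        have := m2 hs.2
        simp only at this
        linarith)
    have hsin : 0 < Real.sin S := Real.sin_pos_of_pos_of_lt_pi hS hSp
    have hk : kf (x S / Real.sin S) = 0 := hK1.2.2 _ (div_nonpos_of_nonpos_of_nonneg hxS hsin.le)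
    have e : Uf S (kf (x S / Real.sin S)) (c S) = Real.cos S / Real.sin S := by
      rw [hk]
      unfold Uf
      simp
    rw [e] at h
    exact h

end Pool.Agent.H421R2.OV
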