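import Pool.Agent.H421R2.OV.Defs

/-!
# The ovals problem: the algebraic inequality (task R)
-/

namespace Pool.Agent.H421R2.OV

theorem R_aux (g t c k Om : ℝ) (ht : t = 1 - g ^ 2) (hP : 1 + g * k ≠ 0) (hQ : 1 - g * k ≠ 0) :
    (-1 + g / 2 * ((1+c)^2*k/(1+g*k) - (1-c)^2*k/(1-g*k))
      - 1 / 2 * ((1+c)^2 * (k*((k*c-g)+Om*(c-g*k)) + t*k^2)/(1+g*k)^2
        - (1-c)^2 * (k*((k*c-g)+Om*(c-g*k)) - t*k^2)/(1-g*k)^2))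
      + (g - ((1+c)^2*k/(1+g*k) - (1-c)^2*k/(1-g*k)) / 2)^2 + t
      + (1-c^2)/4 * (k*((1+c)/(1+g*k) + (1-c)/(1-g*k)))^2 =
    -(Om * ((c - g*k)^2 * k / ((1+g*k)*(1-g*k)) * ((1+c)/(1+g*k) + (1-c)/(1-g*k)))) := by
  subst ht
  field_simp
  ring

theorem R_aux2 (g σ c k Om : ℝ) (hσ : σ ≠ 0) (hP : 1 + g * k ≠ 0) (hQ : 1 - g * k ≠ 0) :
  (-1/σ^2 + g/(2*σ^2) * ((1+c)^2*k/(1+g*k) - (1-c)^2*k/(1-g*k))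
    - 1/(2*σ) * ((1+c)^2 * (k/σ*((k*c-g)+Om*(c-g*k)) + σ*k^2)/(1+g*k)^2
        - (1-c)^2 * (k/σ*((k*c-g)+Om*(c-g*k)) - σ*k^2)/(1-g*k)^2))
    + (g/σ - ((1+c)^2*k/(1+g*k) - (1-c)^2*k/(1-g*k))/(2*σ))^2 + 1
    + (1-c^2)/4 * (k/σ*((1+c)/(1+g*k) + (1-c)/(1-g*k)))^2 =
    ((-1 + g / 2 * ((1+c)^2*k/(1+g*k) - (1-c)^2*k/(1-g*k))
      - 1 / 2 * ((1+c)^2 * (k*((k*c-g)+Om*(c-g*k)) + σ^2*k^2)/(1+g*k)^2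
        - (1-c)^2 * (k*((k*c-g)+Om*(c-g*k)) - σ^2*k^2)/(1-g*k)^2))
      + (g - ((1+c)^2*k/(1+g*k) - (1-c)^2*k/(1-g*k)) / 2)^2 + σ^2
      + (1-c^2)/4 * (k*((1+c)/(1+g*k) + (1-c)/(1-g*k)))^2) / σ^2 := by
  field_simp

theorem t_R : S_R := by
  intro g σ c k Om hσ hg hc hk hP hQ hOm
  rw [R_aux2 g σ c k Om hσ.ne' hP.ne' hQ.ne',
    R_aux g (σ^2) c k Om (by linarith) hP.ne' hQ.ne']
  refine div_nonpos_of_nonpos_of_nonneg ?_ (sq_nonneg _)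
  have h1 : 0 ≤ 1 + c := by nlinarith [sq_nonneg (c + 1)]
  have h2 : 0 ≤ 1 - c := by nlinarith [sq_nonneg (c - 1)]
  have h3 : 0 ≤ (1+c)/(1+g*k) + (1-c)/(1-g*k) := by positivity
  have h4 : 0 ≤ (c - g*k)^2 * k / ((1+g*k)*(1-g*k)) := by positivity
  have h5 := mul_nonneg hOm (mul_nonneg h4 h3)
  linarith

end Pool.Agent.H421R2.OV
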