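import Mathlib
import Pool.Agent.H421R2.OV.Defs
import Pool.Agent.H421R2.OV.TA1
import Pool.Agent.H421R2.OV.TA3
import Pool.Agent.H421R2.OV.TA4
import Pool.Agent.H421R2.OV.TA5
import Pool.Agent.H421R2.OV.TA6
import Pool.Agent.H421R2.OV.TA7
import Pool.Agent.H421R2.OV.TA8
import Pool.Agent.H421R2.OV.TK1
import Pool.Agent.H421R2.OV.TK2
import Pool.Agent.H421R2.OV.TK3
import Pool.Agent.H421R2.OV.TD
import Pool.Agent.H421R2.OV.TR
import Pool.Agent.H421R2.OV.TF0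
import Pool.Agent.H421R2.OV.TF
import Pool.Agent.H421R2.OV.TE
import Pool.Agent.H421R2.OV.TFT
import Pool.Agent.H421R2.OV.TQZ
import Pool.Agent.H421R2.OV.TH
import Pool.Agent.H421R2.OV.TG
import Pool.Agent.H421R2.OV.TC1
import Pool.Agent.H421R2.OV.TC2
import Pool.Agent.H421R2.OV.TC3
import Pool.Agent.H421R2.OV.Arc

/-!
# The ovals problem: assembly
-/

set_option autoImplicit false

namespace Pool.Agent.H421R2.OV

theorem f_A6 : S_A6 := t_A6 t_A1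
theorem f_A8 : S_A8 := t_A8 t_A1 t_A4
theorem f_K1 : S_K1 := t_K1 f_A6 f_A8 t_A9
theorem f_K2 : S_K2 := t_K2 t_A1 t_A2 t_A4 f_K1
theorem f_K3 : S_K3 := t_K3 t_A7 f_A8 t_A9 f_K1
theorem f_D : S_D := t_D t_A5 f_A8 f_K1
theorem f_F0 : S_F0 := t_F0 t_A3 t_A4 f_K1 f_K2 f_K3 f_D t_R
theorem f_F : S_F := t_F f_F0
theorem f_E : S_E := t_E t_A1 t_A4 t_A5 f_A6 f_A8 t_A9 f_K1
theorem f_FT : S_FT := t_FT f_F f_E f_D f_K2 f_K3
theorem f_QZ : S_QZ := t_QZ f_FT f_K1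
theorem f_H : S_H := t_H f_QZ
theorem f_G : S_G := t_G f_H

end Pool.Agent.H421R2.OV
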