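import Pool.Agent.H421R2.OV.Defs

/-! Task F0 (helper347): the Riccati inequality along a path. -/

open MeasureTheory Set Filter Topology intervalIntegral
open scoped ContDiff

namespace Pool.Agent.H421R2.OV

namespace TF0

theorem hasDerivAt_y {x : ℝ → ℝ} {a s : ℝ} (hx : HasDerivAt x a s) (hσ : Real.sin s ≠ 0) :
    HasDerivAt (fun r => x r / Real.sin r)
      ((a - x s / Real.sin s * Real.cos s) / Real.sin s) s := by
  have h := hx.div (Real.hasDerivAt_sin s) hσ
  refine HasDerivAt.congr_deriv (f := fun r => x r / Real.sin r) h ?_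
  field_simp

theorem hasDerivAt_k (h3 : S_A3) (h4 : S_A4) (hK1 : S_K1) (hK2 : S_K2) (hK3 : S_K3)
    {x : ℝ → ℝ} {c s : ℝ} (hx : HasDerivAt x c s) (hσ : 0 < Real.sin s)
    (hy2 : x s / Real.sin s < Real.pi / 2) :
    ∃ Om : ℝ, 0 ≤ Om ∧ HasDerivAt (fun r => kf (x r / Real.sin r))
      (kf (x s / Real.sin s) / Real.sin s * ((kf (x s / Real.sin s) * c - Real.cos s)
        + Om * (c - Real.cos s * kf (x s / Real.sin s)))) s := by
  have hy := hasDerivAt_y hx hσ.ne'
  set g := Real.cos s with hg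
  set σ := Real.sin s with hσd
  set y := x s / σ with hyd
  rcases lt_or_ge 0 y with hpos | hneg
  · obtain ⟨hk, hAf⟩ := hK1.1 y hpos hy2
    have hd := hK2 y hpos hy2
    set k := kf y with hkd
    have hKpos : 0 < 1 / k := by positivity
    have e3 := h3 (1 / k) hKpos
    obtain ⟨hA1, hA2⟩ := h4 (1 / k) hKpos
    rw [hAf] at e3
    set A := Ap (1 / k) with hAdef
    have hAneg : A < 0 := by
      refine lt_of_le_of_lt hA2 ?_
      have : 0 < 1 / (2 * (1 + 1 / k) ^ 2) := by positivity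
      have e : -1 / (2 * (1 + 1 / k) ^ 2) = -(1 / (2 * (1 + 1 / k) ^ 2)) := by ring
      rw [e]; linarith
    refine ⟨(-1 / A - 1) * k, ?_, ?_⟩
    · apply mul_nonneg _ hk.le
      rw [sub_nonneg, neg_div, ← div_neg, le_div_iff₀ (by linarith)]
      linarith
    · have hc := hd.comp s hy
      have hfun : (fun r => kf (x r / Real.sin r)) = kf ∘ (fun r => x r / Real.sin r) := rfl
      rw [hfun]
      refine hc.congr_deriv ?_
      have hA0 : A ≠ 0 := hAneg.ne
      have hk0 : k ≠ 0 := hk.ne'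
      have hs0 : σ ≠ 0 := hσ.ne'
      have e3' : (k ^ 2 - 1) * A - k * y + k ^ 2 = 0 := by
        have e := congrArg (fun z => z * k ^ 2) e3
        have e' : ((1 - (1 / k) ^ 2) * A - 1 / k * y + 1) * k ^ 2 =
            (k ^ 2 - 1) * A - k * y + k ^ 2 := by field_simp
        rw [← e']
        simpa using e
      field_simp
      linear_combination (-g) * e3'
  · refine ⟨0, le_refl _, ?_⟩
    have hk : kf y = 0 := hK1.2.2 y hneg
    have hd := hK3 y hneg
    have hc := hd.comp s hy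
    have hfun : (fun r => kf (x r / Real.sin r)) = kf ∘ (fun r => x r / Real.sin r) := rfl
    rw [hfun, hk]
    refine hc.congr_deriv ?_
    ring

theorem amgm {u t q d : ℝ} (ht : 0 ≤ t) (hq : 0 ≤ q) (hd : d ^ 2 ≤ q * t) :
    u * d ≤ t / 4 * u ^ 2 + q := by
  apply le_of_abs_le
  apply abs_le_of_sq_le_sq
  · have h1 : (u * d) ^ 2 ≤ u ^ 2 * (q * t) := by
      rw [mul_pow]
      exact mul_le_mul_of_nonneg_left hd (sq_nonneg u)
    nlinarith [sq_nonneg (t / 4 * u ^ 2 - q)]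
  · positivity

theorem hasDerivAt_U {κ c : ℝ → ℝ} {k' c' s : ℝ} (hκ : HasDerivAt κ k' s)
    (hc : HasDerivAt c c' s) (hσ : Real.sin s ≠ 0) (h1 : 1 + Real.cos s * κ s ≠ 0)
    (h2 : 1 - Real.cos s * κ s ≠ 0) :
    HasDerivAt (fun r => Uf r (κ r) (c r))
      ((-1/(Real.sin s)^2 + Real.cos s/(2*(Real.sin s)^2) *
        ((1+c s)^2*κ s/(1+Real.cos s*κ s) - (1-c s)^2*κ s/(1-Real.cos s*κ s))
        - 1/(2*Real.sin s) * ((1+c s)^2 * (k' + Real.sin s*κ s^2)/(1+Real.cos s*κ s)^2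
        - (1-c s)^2 * (k' - Real.sin s*κ s^2)/(1-Real.cos s*κ s)^2))
        + -(κ s/Real.sin s*((1+c s)/(1+Real.cos s*κ s) + (1-c s)/(1-Real.cos s*κ s))) * c') s := by
  have hsin := Real.hasDerivAt_sin s
  have hcos := Real.hasDerivAt_cos s
  have hF1 : HasDerivAt (fun r => (1 + c r)^2 * κ r / (1 + Real.cos r * κ r))
      (2 * (1 + c s) * c' * κ s / (1 + Real.cos s * κ s) +
        (1+c s)^2 * (k' + Real.sin s*κ s^2)/(1+Real.cos s*κ s)^2) s := by
    have hp : HasDerivAt (fun r => (1 + c r)^2) (2 * (1 + c s) * c') s := by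
      refine HasDerivAt.congr_deriv ((hc.const_add 1).pow 2) ?_
      push_cast; ring
    have hn : HasDerivAt (fun r => (1 + c r)^2 * κ r)
        (2 * (1 + c s) * c' * κ s + (1 + c s)^2 * k') s := hp.mul hκ
    have hd : HasDerivAt (fun r => 1 + Real.cos r * κ r)
        (-Real.sin s * κ s + Real.cos s * k') s := (hcos.mul hκ).const_add 1
    refine HasDerivAt.congr_deriv (hn.div hd h1) ?_
    field_simp
    ring
  have hF2 : HasDerivAt (fun r => (1 - c r)^2 * κ r / (1 - Real.cos r * κ r))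
      (-(2 * (1 - c s) * c' * κ s / (1 - Real.cos s * κ s)) +
        (1-c s)^2 * (k' - Real.sin s*κ s^2)/(1-Real.cos s*κ s)^2) s := by
    have hp : HasDerivAt (fun r => (1 - c r)^2) (-(2 * (1 - c s) * c')) s := by
      refine HasDerivAt.congr_deriv ((hc.const_sub 1).pow 2) ?_
      push_cast; ring
    have hn : HasDerivAt (fun r => (1 - c r)^2 * κ r)
        (-(2 * (1 - c s) * c') * κ s + (1 - c s)^2 * k') s := hp.mul hκ
    have hd : HasDerivAt (fun r => 1 - Real.cos r * κ r)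
        (-(-Real.sin s * κ s + Real.cos s * k')) s := (hcos.mul hκ).const_sub 1
    refine HasDerivAt.congr_deriv (hn.div hd h2) ?_
    field_simp
    ring
  have hgs := Real.sin_sq_add_cos_sq s
  have hcot : HasDerivAt (fun r => Real.cos r / Real.sin r) (-1/(Real.sin s)^2) s := by
    refine HasDerivAt.congr_deriv (hcos.div hsin hσ) ?_
    congr 1
    linear_combination (-1:ℝ) * hgs
  have h2s : (2 * Real.sin s) ≠ 0 := mul_ne_zero two_ne_zero hσ
  have hF : HasDerivAt (fun r => (1 + c r)^2 * κ r / (1 + Real.cos r * κ r) -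
      (1 - c r)^2 * κ r / (1 - Real.cos r * κ r)) _ s := hF1.sub hF2
  have hS : HasDerivAt (fun r => 2 * Real.sin r) (2 * Real.cos s) s := hsin.const_mul 2
  refine HasDerivAt.congr_deriv (f := fun r => Uf r (κ r) (c r)) (hcot.sub (hF.div hS h2s)) ?_
  clear hF hF1 hF2 hcot hS hsin hcos
  have e1 : ∀ a : ℝ, a / (1 + Real.cos s * κ s) = a * (1 + Real.cos s * κ s)⁻¹ :=
    fun a => div_eq_mul_inv a _
  have e2 : ∀ a : ℝ, a / (1 + Real.cos s * κ s)^2 = a * ((1 + Real.cos s * κ s)⁻¹)^2 := by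
    intro a; rw [div_eq_mul_inv, inv_pow]
  have e3 : ∀ a : ℝ, a / (1 - Real.cos s * κ s) = a * (1 - Real.cos s * κ s)⁻¹ :=
    fun a => div_eq_mul_inv a _
  have e4 : ∀ a : ℝ, a / (1 - Real.cos s * κ s)^2 = a * ((1 - Real.cos s * κ s)⁻¹)^2 := by
    intro a; rw [div_eq_mul_inv, inv_pow]
  simp only [e1, e2, e3, e4]
  generalize (1 + Real.cos s * κ s)⁻¹ = P
  generalize (1 - Real.cos s * κ s)⁻¹ = Q
  field_simp
  ring

end TF0

/-- S_F0 : the Riccati inequality along a path. -/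
theorem t_F0 (h3 : S_A3) (h4 : S_A4) (hK1 : S_K1) (hK2 : S_K2) (hK3 : S_K3) (hD : S_D)
    (hR : S_R) : S_F0 := by
  intro c c' q x hc hc2 hq hcq hx s hs hxs hxs'
  have hσ : 0 < Real.sin s := Real.sin_pos_of_pos_of_lt_pi hs.1 hs.2
  obtain ⟨hy2, hk0, hgk⟩ := hD s hs (x s) hxs hxs'
  obtain ⟨Om, hOm, hκ⟩ := TF0.hasDerivAt_k h3 h4 hK1 hK2 hK3 (hx s) hσ hy2
  have hgk' : |Real.cos s * kf (x s / Real.sin s)| < 1 := by
    rw [abs_mul, abs_of_nonneg hk0]; exact hgk
  obtain ⟨hl, hu⟩ := abs_lt.mp hgk'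
  have h1 : 0 < 1 + Real.cos s * kf (x s / Real.sin s) := by linarith
  have h2 : 0 < 1 - Real.cos s * kf (x s / Real.sin s) := by linarith
  have hU := TF0.hasDerivAt_U (κ := fun r => kf (x r / Real.sin r)) hκ (hc s) hσ.ne' h1.ne' h2.ne'
  refine ⟨_, hU, ?_⟩
  have hr := hR (Real.cos s) (Real.sin s) (c s) (kf (x s / Real.sin s)) Om hσ
    (by rw [add_comm]; exact Real.sin_sq_add_cos_sq s) (hc2 s) hk0 h1 h2 hOm
  have ham := TF0.amgm (u := -(kf (x s / Real.sin s)/Real.sin s*((1+c s)/(1+Real.cos s*kf (x s / Real.sin s)) +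
    (1-c s)/(1-Real.cos s*kf (x s / Real.sin s))))) (t := 1 - c s ^ 2) (q := q s) (d := c' s)
    (by linarith [hc2 s]) (hq s) (hcq s)
  unfold Uf
  rw [neg_sq] at ham
  linarith [hr, ham]

end Pool.Agent.H421R2.OV
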