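import Mathlib

/-! The change of parameter. -/

open MeasureTheory Set Filter Topology intervalIntegral

namespace Pool.Agent.H421R2.OV.W

theorem W1 (Q : ℝ → ℝ) (hQ : Continuous Q) (m M : ℝ) (hm : 0 < m) (h1 : ∀ s, m ≤ Q s)
    (h2 : ∀ s, Q s ≤ M) (p : ℝ) (hI : ∫ s in p..(p+Real.pi), 1 / Q s = Real.pi) :
    ∃ χ : ℝ → ℝ, (∀ r, HasDerivAt χ (Q (χ r)) r) ∧ χ 0 = p ∧ χ Real.pi = p + Real.pi := by
  have hpos : ∀ s, 0 < Q s := fun s => hm.trans_le (h1 s)
  have hM : 0 < M := (hpos 0).trans_le (h2 0)
  have hc : Continuous fun s => 1 / Q s := continuous_const.div hQ fun s => (hpos s).ne'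
  set f : ℝ → ℝ := fun s => ∫ t in p..s, 1 / Q t with hf
  have hd : ∀ s, HasDerivAt f (1 / Q s) s := fun s =>
    (hc.integral_hasStrictDerivAt p s).hasDerivAt
  have hmono : StrictMono f := by
    refine strictMono_of_deriv_pos fun s => ?_
    rw [(hd s).deriv]
    exact one_div_pos.2 (hpos s)
  have hfc : Continuous f := continuous_iff_continuousAt.2 fun s => (hd s).continuousAt
  have hgrow : Monotone fun s => f s - s / M := by
    refine monotone_of_deriv_nonneg
      (fun s => ((hd s).sub ((hasDerivAt_id s).div_const M)).differentiableAt) fun s => ?_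
    have := ((hd s).sub ((hasDerivAt_id s).div_const M)).deriv
    have e : (fun s => f s - s / M) = f - fun s => id s / M := rfl
    rw [e, this]
    have := one_div_le_one_div_of_le (hpos s) (h2 s)
    linarith
  have hf0 : f p = 0 := by simp [hf]
  have hsurj : Function.Surjective f := by
    intro y
    have hup : ∃ b, y ≤ f b := by
      refine ⟨max p (p + M * y), ?_⟩
      have h3 := hgrow (le_max_left p (p + M * y))
      simp only [hf0] at h3
      have h4 : p + M * y ≤ max p (p + M * y) := le_max_right _ _
      have h5 : (p + M * y) / M ≤ max p (p + M * y) / M := div_le_div_of_nonneg_right h4 hM.le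
      have h6 : (p + M * y) / M = p / M + y := by field_simp
      linarith
    have hlo : ∃ a, f a ≤ y := by
      refine ⟨min p (p + M * y), ?_⟩
      have h3 := hgrow (min_le_left p (p + M * y))
      simp only [hf0] at h3
      have h4 : min p (p + M * y) ≤ p + M * y := min_le_right _ _
      have h5 : min p (p + M * y) / M ≤ (p + M * y) / M := div_le_div_of_nonneg_right h4 hM.le
      have h6 : (p + M * y) / M = p / M + y := by field_simp
      linarith
    obtain ⟨a, ha⟩ := hlo
    obtain ⟨b, hb⟩ := hup
    exact mem_range_of_exists_le_of_exists_ge hfc ⟨a, ha⟩ ⟨b, hb⟩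
  set e := hmono.orderIsoOfSurjective f hsurj with he
  have hef : ∀ s, e s = f s := fun s => rfl
  refine ⟨fun r => e.symm r, ?_, ?_, ?_⟩
  · intro r
    have hfe : ∀ r, f (e.symm r) = r := fun r => e.apply_symm_apply r
    have := HasDerivAt.of_local_left_inverse (f := f) (f' := 1 / Q (e.symm r))
      (g := fun r => e.symm r) (a := r) e.symm.continuous.continuousAt (hd _)
      (one_div_pos.2 (hpos _)).ne' (Eventually.of_forall hfe)
    simpa using this
  · change e.symm 0 = p
    rw [e.symm_apply_eq]
    exact hf0.symm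
  · change e.symm Real.pi = p + Real.pi
    rw [e.symm_apply_eq]
    exact hI.symm

end Pool.Agent.H421R2.OV.W
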