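import Pool.Agent.H421R2.OV.TC1
import Pool.Agent.H421R2.OV.TH

/-! Weighted half turns (projective change of the parameter). -/

open MeasureTheory Set Filter Topology intervalIntegral

namespace Pool.Agent.H421R2.OV

namespace W

/-- the weight `Q` and its derivatives -/
noncomputable def Qf (A B C s : ℝ) : ℝ := A + B * Real.cos (2*s) + C * Real.sin (2*s)
noncomputable def Q1 (B C s : ℝ) : ℝ := -2 * B * Real.sin (2*s) + 2 * C * Real.cos (2*s)
noncomputable def Q2 (B C s : ℝ) : ℝ := -4 * B * Real.cos (2*s) - 4 * C * Real.sin (2*s)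

theorem hasDerivAt_Qf (A B C s : ℝ) : HasDerivAt (Qf A B C) (Q1 B C s) s := by
  have h2 : HasDerivAt (fun s : ℝ => 2 * s) 2 s := by
    simpa using (hasDerivAt_id s).const_mul 2
  have hc := h2.cos
  have hs := h2.sin
  have := ((hc.const_mul B).const_add A).add (hs.const_mul C)
  refine this.congr_deriv ?_
  unfold Q1; ring

theorem hasDerivAt_Q1 (B C s : ℝ) : HasDerivAt (Q1 B C) (Q2 B C s) s := by
  have h2 : HasDerivAt (fun s : ℝ => 2 * s) 2 s := by
    simpa using (hasDerivAt_id s).const_mul 2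
  have hc := h2.cos
  have hs := h2.sin
  have := (hs.const_mul (-2 * B)).add (hc.const_mul (2 * C))
  refine this.congr_deriv ?_
  unfold Q2; ring

theorem Qf_id (A B C s : ℝ) (h : A^2 = 1 + B^2 + C^2) :
    Qf A B C s ^ 2 - 1 + Qf A B C s * Q2 B C s / 2 - Q1 B C s ^ 2 / 4 = 0 := by
  unfold Qf Q1 Q2
  have hsc := Real.sin_sq_add_cos_sq (2*s)
  linear_combination (-(B^2 + C^2)) * hsc + h

theorem Qf_bound (A B C s : ℝ) : |B * Real.cos (2*s) + C * Real.sin (2*s)| ≤ Real.sqrt (B^2 + C^2) := by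
  apply Real.abs_le_sqrt
  have hsc := Real.sin_sq_add_cos_sq (2*s)
  nlinarith [sq_nonneg (B * Real.sin (2*s) - C * Real.cos (2*s))]

theorem Qf_pos (A B C : ℝ) (hA : 0 < A) (h : A^2 = 1 + B^2 + C^2) :
    0 < A - Real.sqrt (B^2 + C^2) := by
  have : Real.sqrt (B^2 + C^2) < A := by
    rw [Real.sqrt_lt' hA]; linarith
  linarith

theorem Qf_lower (A B C s : ℝ) : A - Real.sqrt (B^2 + C^2) ≤ Qf A B C s := by
  have := (abs_le.1 (Qf_bound A B C s)).1
  unfold Qf; linarith

theorem Qf_upper (A B C s : ℝ) : Qf A B C s ≤ A + Real.sqrt (B^2 + C^2) := by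
  have := (abs_le.1 (Qf_bound A B C s)).2
  unfold Qf; linarith

theorem Qf_pos' (A B C : ℝ) (hA : 0 < A) (h : A^2 = 1 + B^2 + C^2) (s : ℝ) : 0 < Qf A B C s :=
  (Qf_pos A B C hA h).trans_le (Qf_lower A B C s)

theorem cont_Qf (A B C : ℝ) : Continuous (Qf A B C) := by unfold Qf; fun_prop
theorem cont_Q1 (B C : ℝ) : Continuous (Q1 B C) := by unfold Q1; fun_prop
theorem cont_Q2 (B C : ℝ) : Continuous (Q2 B C) := by unfold Q2; fun_prop

end W

end Pool.Agent.H421R2.OV
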