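import Pool.Agent.H421R2.OV.TW2

/-! Weighted half turns: the half turn theorem after a projective change of the parameter. -/

open MeasureTheory Set Filter Topology intervalIntegral

namespace Pool.Agent.H421R2.OV

namespace W

theorem alg (Q q1 q2 w f f' κ : ℝ) (hw : 0 < w) (hQ : w^2 = Q)
    (h : Q ^ 2 - 1 + Q * q2 / 2 - q1 ^ 2 / 4 = 0) :
    ((f'/w - f * q1 / (2 * Q * w)) * Q)^2 + κ^2 * Q^2 * (f / w)^2 - (f / w)^2
    = ((f'^2 + κ^2 * f^2 - f^2)
      - ((2*f*f'*q1 + f^2*q2)*(2*Q) - f^2 * q1 * (2 * q1))/(2*Q)^2) * Q := by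
  subst hQ
  have hw' : w ≠ 0 := hw.ne'
  field_simp
  linear_combination (4 * f^2) * h

theorem halfturn (hH : S_H) (n : ℕ) (T T' : ℝ → EuclideanSpace ℝ (Fin n)) (φ φ' : ℝ → ℝ)
    (hT : ∀ s, HasDerivAt T (T' s) s) (hT'c : Continuous T') (hTn : ∀ s, ‖T s‖ = 1)
    (hφ : ∀ s, HasDerivAt φ (φ' s) s) (hφ'c : Continuous φ') (A B C p : ℝ) (hA : 0 < A)
    (h : A^2 = 1+B^2+C^2) (χ : ℝ → ℝ) (hχ : ∀ r, HasDerivAt χ (Qf A B C (χ r)) r)
    (hχ0 : χ 0 = p) (hχπ : χ Real.pi = p + Real.pi)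
    (hpar : T (p+Real.pi) = -T p ∨ T (p+Real.pi) = T p)
    (hz : ∫ s in p..(p+Real.pi), inner ℝ (T s) (T p) / Qf A B C s = 0) :
    φ (p+Real.pi)^2 * Q1 B C (p+Real.pi) / (2 * Qf A B C (p+Real.pi))
      - φ p^2 * Q1 B C p/(2 * Qf A B C p)
      ≤ ∫ s in p..(p+Real.pi), (φ' s^2 + ‖T' s‖^2 * φ s^2 - φ s^2) := by
  have hQpos := Qf_pos' A B C hA h
  have hTc : Continuous T := continuous_iff_continuousAt.2 fun s => (hT s).continuousAt
  have hφc : Continuous φ := continuous_iff_continuousAt.2 fun s => (hφ s).continuousAt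
  have hχc : Continuous χ := continuous_iff_continuousAt.2 fun s => (hχ s).continuousAt
  have hQc := cont_Qf A B C
  have hQ1c := cont_Q1 B C
  have hQ2c := cont_Q2 B C
  have hTχ : Continuous fun r => T (χ r) := hTc.comp hχc
  have hwpos : ∀ s, 0 < Real.sqrt (Qf A B C s) := fun s => Real.sqrt_pos.2 (hQpos s)
  have hw2 : ∀ s, Real.sqrt (Qf A B C s) ^ 2 = Qf A B C s := fun s => Real.sq_sqrt (hQpos s).le
  have hwc : Continuous fun s => Real.sqrt (Qf A B C s) := Real.continuous_sqrt.comp hQc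
  -- the reparametrised curve
  set g : ℝ → EuclideanSpace ℝ (Fin n) := fun r => ∫ ρ in (0:ℝ)..r, T (χ ρ) with hg
  have hg' : ∀ r, HasDerivAt g (T (χ r)) r := fun r =>
    (hTχ.integral_hasStrictDerivAt 0 r).hasDerivAt
  have hT2 : ∀ r, HasDerivAt (fun r => T (χ r)) (Qf A B C (χ r) • T' (χ r)) r := fun r =>
    (hT (χ r)).scomp r (hχ r)
  have hbal : Balanced g (fun r => T (χ r)) 0 := by
    refine C1.half n g _ hg' (fun s => hTn _) 0 ?_ ?_
    · rw [zero_add, hχ0, hχπ]; exact hpar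
    · have e1 : ∫ r in (0:ℝ)..Real.pi, inner ℝ (T (χ r)) (T p)
          = inner ℝ (g Real.pi) (T p) - inner ℝ (g 0) (T p) := by
        refine integral_eq_sub_of_hasDerivAt (f := fun r => inner ℝ (g r) (T p)) ?_ ?_
        · intro r _
          have := (hg' r).inner ℝ (hasDerivAt_const r (T p))
          simpa using this
        · exact (hTχ.inner continuous_const).intervalIntegrable _ _
      have e2 := integral_comp_mul_deriv (a := 0) (b := Real.pi) (f := χ)
        (f' := fun r => Qf A B C (χ r)) (g := fun s => inner ℝ (T s) (T p) / Qf A B C s)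
        (fun r _ => hχ r) (hQc.comp hχc).continuousOn
        ((hTc.inner continuous_const).div hQc fun s => (hQpos s).ne')
      rw [hχ0, hχπ, hz] at e2
      have e3 : ∫ r in (0:ℝ)..Real.pi, inner ℝ (T (χ r)) (T p) = 0 := by
        refine Eq.trans ?_ e2
        apply integral_congr
        intro r _
        simp only [Function.comp]
        rw [div_mul_cancel₀ _ (hQpos _).ne']
      rw [zero_add, hχ0, inner_sub_left, ← e1, e3]
  -- the reparametrised function
  set k : ℝ → ℝ := fun s => φ s / Real.sqrt (Qf A B C s) with hk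
  set k' : ℝ → ℝ := fun s => φ' s / Real.sqrt (Qf A B C s)
    - φ s * Q1 B C s / (2 * Qf A B C s * Real.sqrt (Qf A B C s)) with hk'
  have hkd : ∀ s, HasDerivAt k (k' s) s := by
    intro s
    have h1 := (hasDerivAt_Qf A B C s).sqrt (hQpos s).ne'
    have h2 := (hφ s).div h1 (hwpos s).ne'
    refine h2.congr_deriv ?_
    rw [hk']
    have hw := hwpos s
    have hq := hw2 s
    simp only
    set w := Real.sqrt (Qf A B C s)
    rw [← hq]
    have : w ≠ 0 := hw.ne'
    field_simp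
  have hk'c : Continuous k' := by
    rw [hk']
    refine (hφ'c.div hwc fun s => (hwpos s).ne').sub
      ((hφc.mul hQ1c).div ((continuous_const.mul hQc).mul hwc) fun s => ?_)
    have := hwpos s
    have := hQpos s
    positivity
  have hkχ : ∀ r, HasDerivAt (fun r => k (χ r)) (k' (χ r) * Qf A B C (χ r)) r := fun r =>
    (hkd (χ r)).comp r (hχ r)
  have key := hH n g (fun r => T (χ r)) (fun r => Qf A B C (χ r) • T' (χ r))
    (fun r => k (χ r)) (fun r => k' (χ r) * Qf A B C (χ r)) hg' hT2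
    ((hQc.comp hχc).smul (hT'c.comp hχc)) (fun s => hTn _) hkχ
    ((hk'c.comp hχc).mul (hQc.comp hχc)) 0 hbal
  -- change of variables
  set D : ℝ → ℝ := fun s => ((2*φ s*φ' s*Q1 B C s + φ s^2*Q2 B C s)*(2*Qf A B C s)
    - φ s^2 * Q1 B C s * (2 * Q1 B C s))/(2*Qf A B C s)^2 with hD
  set F : ℝ → ℝ := fun s => (φ' s^2 + ‖T' s‖^2 * φ s^2 - φ s^2) - D s with hF
  have hDc : Continuous D := by
    rw [hD]
    refine Continuous.div (by fun_prop) (by fun_prop) fun s => ?_
    have := hQpos s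
    positivity
  have hEc : Continuous fun s => φ' s^2 + ‖T' s‖^2 * φ s^2 - φ s^2 := by fun_prop
  have hFc : Continuous F := hEc.sub hDc
  have e4 := integral_comp_mul_deriv (a := 0) (b := Real.pi) (f := χ)
        (f' := fun r => Qf A B C (χ r)) (g := F)
        (fun r _ => hχ r) (hQc.comp hχc).continuousOn hFc
  rw [hχ0, hχπ] at e4
  rw [zero_add] at key
  have e5 : ∫ r in (0:ℝ)..Real.pi, ((k' (χ r) * Qf A B C (χ r))^2
      + ‖Qf A B C (χ r) • T' (χ r)‖^2 * (k (χ r))^2 - (k (χ r))^2)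
      = ∫ r in (0:ℝ)..Real.pi, (F ∘ χ) r * Qf A B C (χ r) := by
    refine integral_congr fun r _ => ?_
    simp only [Function.comp, hF, hD, hk, hk']
    rw [norm_smul, Real.norm_eq_abs, abs_of_pos (hQpos _), mul_pow]
    rw [← alg (Qf A B C (χ r)) (Q1 B C (χ r)) (Q2 B C (χ r)) (Real.sqrt (Qf A B C (χ r)))
      (φ (χ r)) (φ' (χ r)) (‖T' (χ r)‖) (hwpos _) (hw2 _) (Qf_id A B C _ h)]
    ring
  rw [e5, e4] at key
  have e6 : ∫ s in p..(p+Real.pi), F s = (∫ s in p..(p+Real.pi),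
      (φ' s^2 + ‖T' s‖^2 * φ s^2 - φ s^2)) - ∫ s in p..(p+Real.pi), D s :=
    integral_sub (hEc.intervalIntegrable _ _) (hDc.intervalIntegrable _ _)
  have e7 : ∫ s in p..(p+Real.pi), D s
      = φ (p+Real.pi)^2 * Q1 B C (p+Real.pi) / (2 * Qf A B C (p+Real.pi))
      - φ p^2 * Q1 B C p/(2 * Qf A B C p) := by
    refine integral_eq_sub_of_hasDerivAt
      (f := fun s => φ s^2 * Q1 B C s / (2 * Qf A B C s)) ?_ (hDc.intervalIntegrable _ _)
    intro s _
    have h1 := (((hφ s).pow 2).mul (hasDerivAt_Q1 B C s)).div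
      ((hasDerivAt_Qf A B C s).const_mul 2) (by have := hQpos s; positivity)
    refine h1.congr_deriv ?_
    rw [hD]
    simp only [Pi.mul_apply, Pi.pow_apply]
    norm_num
  linarith [key, e6, e7]

end W

end Pool.Agent.H421R2.OV
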