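import Mathlib

/-! Weight integral (helper926). -/

open MeasureTheory Set Filter Topology intervalIntegral

namespace Pool.Agent.H421R2.OV.W

theorem w4_pos {A B C : ℝ} (hA : 0 < A) (h : A^2 = 1 + B^2 + C^2) (s : ℝ) :
    0 < A + B * Real.cos (2*s) + C * Real.sin (2*s) := by
  have h1 : (B * Real.cos (2*s) + C * Real.sin (2*s)) ^ 2 < A ^ 2 := by
    have h2 : (B * Real.cos (2*s) + C * Real.sin (2*s)) ^ 2 +
        (B * Real.sin (2*s) - C * Real.cos (2*s)) ^ 2 = B^2 + C^2 := by
      have := Real.cos_sq_add_sin_sq (2*s)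
      linear_combination (B^2 + C^2) * this
    nlinarith [sq_nonneg (B * Real.sin (2*s) - C * Real.cos (2*s))]
  have h3 := abs_lt_of_sq_lt_sq h1 hA.le
  linarith [neg_lt_of_abs_lt h3]

theorem W4 (A B C p : ℝ) (hA : 0 < A) (h : A^2 = 1 + B^2 + C^2) :
    ∫ s in p..(p+Real.pi), 1/(A + B*Real.cos (2*s) + C*Real.sin (2*s)) = Real.pi := by
  have hper : Function.Periodic
      (fun s : ℝ => 1/(A + B*Real.cos (2*s) + C*Real.sin (2*s))) Real.pi := by
    intro s
    have e : 2 * (s + Real.pi) = 2 * s + 2 * Real.pi := by ring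
    simp only [e, Real.cos_add_two_pi, Real.sin_add_two_pi]
  have e1 := hper.intervalIntegral_add_eq p (-(Real.pi/2))
  have e2 : -(Real.pi/2) + Real.pi = Real.pi/2 := by ring
  rw [e2] at e1
  rw [e1]
  have hAB : 0 < A - B := by
    have h1 : B ^ 2 < A ^ 2 := by nlinarith [sq_nonneg C]
    have := abs_lt_of_sq_lt_sq h1 hA.le
    linarith [lt_of_abs_lt this]
  have hcont : Continuous (fun s : ℝ => 1/(A + B*Real.cos (2*s) + C*Real.sin (2*s))) :=
    continuous_const.div (by fun_prop) (fun s => (w4_pos hA h s).ne')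
  have key := intervalIntegral.integral_eq_sub_of_hasDerivAt_of_tendsto
    (f := fun s : ℝ => Real.arctan ((A - B) * Real.tan s + C))
    (f' := fun s : ℝ => 1/(A + B*Real.cos (2*s) + C*Real.sin (2*s)))
    (a := -(Real.pi/2)) (b := Real.pi/2) (fa := -(Real.pi/2)) (fb := Real.pi/2)
    (by linarith [Real.pi_pos]) ?_ (hcont.intervalIntegrable _ _) ?_ ?_
  · rw [key]; ring
  · intro s hs
    have hc : 0 < Real.cos s := Real.cos_pos_of_mem_Ioo hs
    have h1 := (((Real.hasDerivAt_tan hc.ne').const_mul (A - B)).add_const C).arctan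
    have h2 : 1 / (1 + ((A - B) * Real.tan s + C) ^ 2) * ((A - B) * (1 / Real.cos s ^ 2)) =
        1/(A + B*Real.cos (2*s) + C*Real.sin (2*s)) := by
      have hQ := w4_pos hA h s
      have hden : 0 < 1 + ((A - B) * Real.tan s + C) ^ 2 := by positivity
      have hk : (A - B) * (A + B*Real.cos (2*s) + C*Real.sin (2*s)) =
          (1 + ((A - B) * Real.tan s + C) ^ 2) * Real.cos s ^ 2 := by
        rw [Real.tan_eq_sin_div_cos, Real.cos_two_mul, Real.sin_two_mul]
        have h3 : (1 + ((A - B) * (Real.sin s / Real.cos s) + C) ^ 2) * Real.cos s ^ 2 =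
            Real.cos s ^ 2 + ((A - B) * Real.sin s + C * Real.cos s) ^ 2 := by
          field_simp
        rw [h3]
        have h4 : Real.sin s ^ 2 = 1 - Real.cos s ^ 2 := by
          linarith [Real.sin_sq_add_cos_sq s]
        have h5 : A^2 = 1 + B^2 + C^2 := h
        linear_combination (Real.cos s ^ 2) * h5 - (A - B)^2 * h4
      have h6 : 1 / (1 + ((A - B) * Real.tan s + C) ^ 2) * ((A - B) * (1 / Real.cos s ^ 2)) =
          (A - B) / ((1 + ((A - B) * Real.tan s + C) ^ 2) * Real.cos s ^ 2) := by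
        have hden' := hden.ne'
        have hc' := hc.ne'
        field_simp
      rw [h6, ← hk, div_eq_div_iff (mul_pos hAB hQ).ne' hQ.ne']
      ring
    have h1' := h1
    rw [h2] at h1'
    exact h1'
  · have h1 : Tendsto (fun s : ℝ => (A - B) * Real.tan s + C) (𝓝[>] (-(Real.pi/2))) atBot :=
      tendsto_atBot_add_const_right _ _
        (Real.tendsto_tan_neg_pi_div_two.const_mul_atBot hAB)
    exact (Real.tendsto_arctan_atBot.mono_right nhdsWithin_le_nhds).comp h1
  · have h1 : Tendsto (fun s : ℝ => (A - B) * Real.tan s + C) (𝓝[<] (Real.pi/2)) atTop :=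
      tendsto_atTop_add_const_right _ _
        (Real.tendsto_tan_pi_div_two.const_mul_atTop hAB)
    exact (Real.tendsto_arctan_atTop.mono_right nhdsWithin_le_nhds).comp h1

end Pool.Agent.H421R2.OV.W
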