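import Pool.Agent.H421R2.OV.TW1
import Pool.Agent.H421R2.OV.TW3
import Pool.Agent.H421R2.OV.TW4
import Pool.Agent.H421R2.OV.TG

/-! Weighted half turns: the criterion for closed curves. -/

open MeasureTheory Set Filter Topology intervalIntegral
open scoped ContDiff

namespace Pool.Agent.H421R2.OV

/-- `γ` has parallel unit tangents at `p` and `p + π`, and for some real `L` and `a, b > 0` the
components of the unit tangent along `γ'(p)` on the two half turns `[p, p + π]`, `[p + π, p + 2π]` have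
weighted means zero, with weights `1/(a² (cos t + L sin t)² + sin² t)` and
`1/(b² (cos t + L sin t)² + sin² t)`, `t = s - p`. -/
def WeightedPair {n : ℕ} (γ : ℝ → EuclideanSpace ℝ (Fin n)) (p : ℝ) : Prop :=
  (deriv γ (p + Real.pi) = -deriv γ p ∨ deriv γ (p + Real.pi) = deriv γ p) ∧
  ∃ L a b : ℝ, 0 < a ∧ 0 < b ∧
    ∫ s in p..(p + Real.pi), inner ℝ (deriv γ s) (deriv γ p) /
      (a^2 * (Real.cos (s - p) + L * Real.sin (s - p))^2 + Real.sin (s - p)^2) = 0 ∧
    ∫ s in (p + Real.pi)..(p + 2 * Real.pi), inner ℝ (deriv γ s) (deriv γ p) /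
      (b^2 * (Real.cos (s - p) + L * Real.sin (s - p))^2 + Real.sin (s - p)^2) = 0

namespace W

theorem Qf_eq (a L p s : ℝ) (ha : 0 < a) :
    Qf ((a + (a*L^2 + 1/a))/2)
      ((a - (a*L^2 + 1/a))/2 * Real.cos (2*p) - a*L*Real.sin (2*p))
      ((a - (a*L^2 + 1/a))/2 * Real.sin (2*p) + a*L*Real.cos (2*p)) s
    = (a^2 * (Real.cos (s - p) + L * Real.sin (s - p))^2 + Real.sin (s - p)^2) / a := by
  have e1 : Real.cos (2*p) * Real.cos (2*s) + Real.sin (2*p) * Real.sin (2*s)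
      = 2 * Real.cos (s-p)^2 - 1 := by
    rw [← Real.cos_two_mul, ← Real.cos_sub, ← Real.cos_neg]; congr 1; ring
  have e2 : Real.sin (2*s) * Real.cos (2*p) - Real.cos (2*s) * Real.sin (2*p)
      = 2 * Real.sin (s-p) * Real.cos (s-p) := by
    rw [← Real.sin_two_mul, ← Real.sin_sub]; congr 1; ring
  have e3 : Real.sin (s-p)^2 = 1 - Real.cos (s-p)^2 := by
    linarith [Real.sin_sq_add_cos_sq (s-p)]
  have e4 : (a^2 * (Real.cos (s - p) + L * Real.sin (s - p))^2 + Real.sin (s - p)^2) / a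
      = a * (Real.cos (s - p) + L * Real.sin (s - p))^2 + Real.sin (s - p)^2 * (1/a) := by
    field_simp
  rw [e4]
  unfold Qf
  linear_combination ((a - (a*L^2 + 1/a))/2) * e1 + (a * L) * e2 - (a * L^2 + 1/a) * e3

theorem halfL (hH : S_H) (n : ℕ) (T T' : ℝ → EuclideanSpace ℝ (Fin n)) (φ φ' : ℝ → ℝ)
    (hT : ∀ s, HasDerivAt T (T' s) s) (hT'c : Continuous T') (hTn : ∀ s, ‖T s‖ = 1)
    (hφ : ∀ s, HasDerivAt φ (φ' s) s) (hφ'c : Continuous φ') (L a p : ℝ) (ha : 0 < a)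
    (hpar : T (p+Real.pi) = -T p ∨ T (p+Real.pi) = T p)
    (hz : ∫ s in p..(p+Real.pi), inner ℝ (T s) (T p) /
      (a^2 * (Real.cos (s - p) + L * Real.sin (s - p))^2 + Real.sin (s - p)^2) = 0) :
    L * (φ (p+Real.pi)^2 - φ p^2)
      ≤ ∫ s in p..(p+Real.pi), (φ' s^2 + ‖T' s‖^2 * φ s^2 - φ s^2) := by
  set A : ℝ := (a + (a*L^2 + 1/a))/2 with hA
  set B : ℝ := (a - (a*L^2 + 1/a))/2 * Real.cos (2*p) - a*L*Real.sin (2*p) with hB
  set C : ℝ := (a - (a*L^2 + 1/a))/2 * Real.sin (2*p) + a*L*Real.cos (2*p) with hC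
  have hA0 : 0 < A := by rw [hA]; positivity
  have hABC : A^2 = 1 + B^2 + C^2 := by
    have e1 := Real.sin_sq_add_cos_sq (2*p)
    have e2 : a * (1/a) = 1 := by field_simp
    rw [hA, hB, hC]
    linear_combination (-(((a - (a*L^2 + 1/a))/2)^2 + (a*L)^2)) * e1 + e2
  have hQ : ∀ s, Qf A B C s
      = (a^2 * (Real.cos (s - p) + L * Real.sin (s - p))^2 + Real.sin (s - p)^2) / a :=
    fun s => Qf_eq a L p s ha
  obtain ⟨χ, hχ, hχ0, hχπ⟩ := W1 (Qf A B C) (cont_Qf A B C) _ _ (Qf_pos A B C hA0 hABC)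
    (Qf_lower A B C) (Qf_upper A B C) p (W4 A B C p hA0 hABC)
  have hz' : ∫ s in p..(p+Real.pi), inner ℝ (T s) (T p) / Qf A B C s = 0 := by
    have e : ∀ s, inner ℝ (T s) (T p) / Qf A B C s = a * (inner ℝ (T s) (T p) /
      (a^2 * (Real.cos (s - p) + L * Real.sin (s - p))^2 + Real.sin (s - p)^2)) := by
      intro s
      rw [hQ s, div_div_eq_mul_div]
      ring
    simp_rw [e]
    rw [intervalIntegral.integral_const_mul, hz, mul_zero]
  have key := halfturn hH n T T' φ φ' hT hT'c hTn hφ hφ'c A B C p hA0 hABC χ hχ hχ0 hχπ hpar hz'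
  have hq0 : Qf A B C p = a := by
    rw [hQ p]; simp; field_simp
  have hqπ : Qf A B C (p + Real.pi) = a := by
    rw [hQ (p + Real.pi)]; simp; field_simp
  have h10 : Q1 B C p = 2 * (a * L) := by
    have e1 := Real.sin_sq_add_cos_sq (2*p)
    unfold Q1
    rw [hB, hC]
    linear_combination (2 * (a * L)) * e1
  have h1π : Q1 B C (p + Real.pi) = 2 * (a * L) := by
    rw [← h10]
    unfold Q1
    have e : 2 * (p + Real.pi) = 2 * p + 2 * Real.pi := by ring
    rw [e, Real.cos_add_two_pi, Real.sin_add_two_pi]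
  rw [hq0, hqπ, h10, h1π] at key
  have e : φ (p + Real.pi) ^ 2 * (2 * (a * L)) / (2 * a) - φ p ^ 2 * (2 * (a * L)) / (2 * a)
      = L * (φ (p+Real.pi)^2 - φ p^2) := by
    field_simp
  rw [e] at key
  exact key

theorem closed (hH : S_H) (n : ℕ) (γ : ℝ → EuclideanSpace ℝ (Fin n)) (hγ : ContDiff ℝ 2 γ)
    (hper : Function.Periodic γ (2 * Real.pi)) (hT : ∀ s : ℝ, ‖deriv γ s‖ = 1)
    (p : ℝ) (hp : WeightedPair γ p)
    (φ : ℝ → ℝ) (hφ : ContDiff ℝ 1 φ) (hφper : Function.Periodic φ (2 * Real.pi)) :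
    (∫ s in (0 : ℝ)..(2 * Real.pi), (φ s) ^ 2) ≤
      ∫ s in (0 : ℝ)..(2 * Real.pi), ((deriv φ s) ^ 2 + ‖deriv (deriv γ) s‖ ^ 2 * (φ s) ^ 2) := by
  obtain ⟨hpar, L, a, b, ha, hb, hz1, hz2⟩ := hp
  have hγ1 : ContDiff ℝ 1 (deriv γ) := by
    have h1 : ContDiff ℝ (1 + 1) γ := by
      have : ((1 : WithTop ℕ∞) + 1) = 2 := by norm_num
      rw [this]; exact hγ
    exact (contDiff_succ_iff_deriv.1 h1).2.2
  have hd2 : ∀ s, HasDerivAt (deriv γ) (deriv (deriv γ) s) s := fun s =>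
    (hγ1.differentiable (by norm_num)).differentiableAt.hasDerivAt
  have hc2 : Continuous (deriv (deriv γ)) := hγ1.continuous_deriv le_rfl
  have hd3 : ∀ s, HasDerivAt φ (deriv φ s) s := fun s =>
    (hφ.differentiable (by norm_num)).differentiableAt.hasDerivAt
  have hc3 : Continuous (deriv φ) := hφ.continuous_deriv le_rfl
  have hc4 : Continuous φ := hφ.continuous
  have h1 := halfL hH n (deriv γ) (deriv (deriv γ)) φ (deriv φ) hd2 hc2 hT hd3 hc3 L a p ha
    hpar hz1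
  have hTper := G_periodic_deriv hper
  have ep : p + Real.pi + Real.pi = p + 2 * Real.pi := by ring
  have hpar2 : deriv γ (p + Real.pi + Real.pi) = -deriv γ (p + Real.pi) ∨
      deriv γ (p + Real.pi + Real.pi) = deriv γ (p + Real.pi) := by
    rw [ep, hTper p]
    rcases hpar with h | h
    · left; rw [h, neg_neg]
    · right; rw [h]
  have hz2' : ∫ s in (p + Real.pi)..(p + Real.pi + Real.pi),
      inner ℝ (deriv γ s) (deriv γ (p + Real.pi)) /
      (b^2 * (Real.cos (s - (p + Real.pi)) + L * Real.sin (s - (p + Real.pi)))^2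
        + Real.sin (s - (p + Real.pi))^2) = 0 := by
    have hcs : ∀ s : ℝ, (b^2 * (Real.cos (s - (p + Real.pi)) + L * Real.sin (s - (p + Real.pi)))^2
        + Real.sin (s - (p + Real.pi))^2)
        = (b^2 * (Real.cos (s - p) + L * Real.sin (s - p))^2 + Real.sin (s - p)^2) := by
      intro s
      have e : s - (p + Real.pi) = (s - p) - Real.pi := by ring
      rw [e, Real.cos_sub_pi, Real.sin_sub_pi]
      ring
    simp_rw [hcs]
    rw [ep]
    rcases hpar with h | h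
    · rw [h]
      simp_rw [inner_neg_right, neg_div]
      rw [intervalIntegral.integral_neg, hz2, neg_zero]
    · rw [h]
      exact hz2
  have h2 := halfL hH n (deriv γ) (deriv (deriv γ)) φ (deriv φ) hd2 hc2 hT hd3 hc3 L b
    (p + Real.pi) hb hpar2 hz2'
  set F : ℝ → ℝ := fun s => deriv φ s ^ 2 + ‖deriv (deriv γ) s‖ ^ 2 * φ s ^ 2 - φ s ^ 2 with hF
  have hFc : Continuous F := by
    rw [hF]
    exact ((hc3.pow 2).add ((hc2.norm.pow 2).mul (hc4.pow 2))).sub (hc4.pow 2)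
  have hFper : Function.Periodic F (2 * Real.pi) := by
    intro s
    have e1 := G_periodic_deriv hφper s
    have e2 := G_periodic_deriv (G_periodic_deriv hper) s
    simp only [hF, e1, e2, hφper s]
  have h3 : ∫ s in p..(p + 2 * Real.pi), F s = ∫ s in (0 : ℝ)..(0 + 2 * Real.pi), F s :=
    hFper.intervalIntegral_add_eq p 0
  have h4 : ∫ s in p..(p + 2 * Real.pi), F s =
      (∫ s in p..(p + Real.pi), F s) + ∫ s in (p + Real.pi)..(p + Real.pi + Real.pi), F s := by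
    rw [intervalIntegral.integral_add_adjacent_intervals (hFc.intervalIntegrable _ _)
      (hFc.intervalIntegrable _ _)]
    congr 1
    ring
  have h5 : 0 ≤ ∫ s in (0 : ℝ)..(2 * Real.pi), F s := by
    have h6 : (0 : ℝ) + 2 * Real.pi = 2 * Real.pi := zero_add _
    rw [h6] at h3
    rw [← h3, h4]
    rw [ep, hφper p] at h2
    have h2' : L * (φ p ^ 2 - φ (p + Real.pi) ^ 2)
      ≤ ∫ s in (p + Real.pi)..(p + Real.pi + Real.pi), F s := by
      rw [ep]; exact h2
    have h1' : L * (φ (p + Real.pi) ^ 2 - φ p ^ 2) ≤ ∫ s in p..(p + Real.pi), F s := h1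
    linarith
  have h7 : ∫ s in (0 : ℝ)..(2 * Real.pi), F s =
      (∫ s in (0 : ℝ)..(2 * Real.pi), ((deriv φ s) ^ 2 + ‖deriv (deriv γ) s‖ ^ 2 * (φ s) ^ 2)) -
        ∫ s in (0 : ℝ)..(2 * Real.pi), (φ s) ^ 2 := by
    rw [← intervalIntegral.integral_sub]
    · exact ((hc3.pow 2).add ((hc2.norm.pow 2).mul (hc4.pow 2))).intervalIntegrable _ _
    · exact (hc4.pow 2).intervalIntegrable _ _
  rw [h7] at h5
  linarith

end W

end Pool.Agent.H421R2.OV
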